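import Pool.Agent.Lib.MP_322279_an.All.Leg

/-!
Asymptotics of Mehler's integral far out on a non-real ray.
-/

namespace Pool.Agent.Lib.MP_322279_an.All

open MeasureTheory Set Filter Topology Metric
open scoped ContDiff

/-- The rescaled kernel. -/
noncomputable def asK (w : ℂ) (L x : ℝ) : ℂ :=
  (((Real.exp (-L) * Real.cosh (L * x) : ℝ) : ℂ) + w) ^ (-(1 / 2 : ℂ))

/-- The limit of the rescaled kernel. -/
noncomputable def asI (w : ℂ) : ℝ → ℂ := (Ioc (-1 : ℝ) 1).indicator fun _ => w ^ (-(1 / 2 : ℂ))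

lemma as_slit {w : ℂ} (hw : w.im ≠ 0) (τ : ℝ) : (τ : ℂ) + w ∈ Complex.slitPlane :=
  Or.inr (by simpa using hw)

lemma as_scale {w : ℂ} (hw : w.im ≠ 0) {L : ℝ} (hL : 0 < L) (m : ℂ) :
    ((Real.exp (L / 2) / L : ℝ) : ℂ) * leg (1 / 2) (m / L) (Real.exp L * w) =
      ∫ x : ℝ, Complex.exp (m * x) * asK w L x := by
  have L0 : (L : ℂ) ≠ 0 := Complex.ofReal_ne_zero.2 hL.ne'
  have h := Measure.integral_comp_mul_left (fun y : ℝ => Complex.exp (m / L * y) *
    ((Real.cosh y : ℂ) + Real.exp L * w) ^ (-((1 / 2 : ℝ) : ℂ))) L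
  rw [abs_of_pos (inv_pos.2 hL), Complex.real_smul] at h
  rw [div_eq_mul_inv (Real.exp _), Complex.ofReal_mul, mul_assoc, leg, ← h, ← integral_const_mul]
  refine integral_congr_ae (Eventually.of_forall fun x => ?_)
  have z0 := Complex.slitPlane_ne_zero (as_slit hw (Real.exp (-L) * Real.cosh (L * x)))
  have e1 : ((Real.cosh (L * x) : ℝ) : ℂ) + Real.exp L * w =
      (Real.exp L : ℝ) * (((Real.exp (-L) * Real.cosh (L * x) : ℝ) : ℂ) + w) := by
    rw [mul_add, ← Complex.ofReal_mul, ← mul_assoc, ← Real.exp_add, add_neg_cancel, Real.exp_zero,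
      one_mul]
  have e2 : m / L * ((L * x : ℝ) : ℂ) = m * x := by
    push_cast
    field_simp
  simp only [asK]
  rw [e1, e2, Complex.cpow_def_of_ne_zero z0, Complex.cpow_def_of_ne_zero
    (mul_ne_zero (Complex.ofReal_ne_zero.2 (Real.exp_pos L).ne') z0),
    Complex.log_ofReal_mul (Real.exp_pos L) z0, Real.log_exp, Complex.ofReal_exp,
    ← Complex.exp_add, ← Complex.exp_add, ← Complex.exp_add]
  congr 1
  push_cast
  ring

lemma as_bound {w : ℂ} (hw : w.im ≠ 0) : ∃ C : ℝ, 0 < C ∧ ∀ L x t : ℝ, 0 ≤ L →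
    (t ≤ 0 ∨ t ≤ L * (|x| - 1)) → ‖asK w L x‖ ≤ C * Real.exp (-t / 2) := by
  have d0 : 0 < |w.im| := abs_pos.2 hw
  have w0 := norm_nonneg w
  obtain ⟨c, hc⟩ : ∃ c, c = |w.im| / (2 * (|w.im| + ‖w‖ + 1)) := ⟨_, rfl⟩
  have c0 : 0 < c := by rw [hc]; positivity
  refine ⟨c ^ (-(1 / 2 : ℝ)), by positivity, fun L x t hL ht => ?_⟩
  have a1 : Real.exp (L * (|x| - 1)) ≤ 2 * (Real.exp (-L) * Real.cosh (L * x)) := by
    have b1 : Real.exp (|L * x|) ≤ 2 * Real.cosh (L * x) := by
      rw [← Real.cosh_abs, Real.cosh_eq]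
      linarith [Real.exp_pos (-|L * x|)]
    rw [mul_sub, mul_one, sub_eq_neg_add, Real.exp_add, ← abs_of_nonneg hL, ← abs_mul,
      abs_of_nonneg hL, mul_left_comm]
    exact mul_le_mul_of_nonneg_left b1 (Real.exp_pos _).le
  unfold asK
  generalize Real.exp (-L) * Real.cosh (L * x) = τ at a1
  have τ0 : 0 ≤ τ := by linarith [Real.exp_pos (L * (|x| - 1))]
  have a2 : |w.im| ≤ ‖(τ : ℂ) + w‖ := by simpa using Complex.abs_im_le_norm ((τ : ℂ) + w)
  have a3 : τ ≤ ‖(τ : ℂ) + w‖ + ‖w‖ := by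
    simpa [abs_of_nonneg τ0] using norm_sub_le ((τ : ℂ) + w) w
  have a4 : c * Real.exp t ≤ ‖(τ : ℂ) + w‖ := by
    rw [hc, div_mul_eq_mul_div, div_le_iff₀ (by positivity)]
    rcases ht with h | h
    · nlinarith [Real.exp_le_one_iff.2 h]
    · nlinarith [Real.exp_le_exp.2 h]
  have e : (-(1 / 2 : ℂ)) = ((-(1 / 2) : ℝ) : ℂ) := by push_cast; rfl
  rw [e, Complex.norm_cpow_real]
  refine (Real.rpow_le_rpow_of_nonpos (by positivity) a4 (by norm_num)).trans (le_of_eq ?_)
  rw [Real.mul_rpow c0.le (Real.exp_pos t).le, ← Real.exp_mul]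
  congr 2
  ring

lemma as_cont {w : ℂ} (hw : w.im ≠ 0) (L : ℝ) : Continuous (asK w L) :=
  Continuous.cpow (by fun_prop) continuous_const fun _ => as_slit hw _

lemma as_lim {w : ℂ} (hw : w.im ≠ 0) {x : ℝ} (h1 : x ≠ 1) (h2 : x ≠ -1) :
    Tendsto (fun L => asK w L x) atTop (𝓝 (asI w x)) := by
  have t : ∀ b : ℝ, 0 < b → Tendsto (fun L : ℝ => Real.exp (-(L * b))) atTop (𝓝 0) := fun b hb =>
    Real.tendsto_exp_neg_atTop_nhds_zero.comp (tendsto_id.atTop_mul_const hb)
  rcases lt_trichotomy |x| 1 with h | h | h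
  · rw [asI, indicator_of_mem (show x ∈ Ioc (-1 : ℝ) 1 from ⟨(abs_lt.1 h).1, (abs_lt.1 h).2.le⟩)]
    have a : Tendsto (fun L : ℝ => Real.exp (-L) * Real.cosh (L * x)) atTop (𝓝 0) := by
      refine squeeze_zero' (Eventually.of_forall fun L => by positivity) ?_
        (t (1 - |x|) (by linarith))
      filter_upwards [eventually_ge_atTop 0] with L hL
      have b1 : Real.cosh (L * x) ≤ Real.exp (L * |x|) := by
        rw [← Real.cosh_abs, Real.cosh_eq, abs_mul, abs_of_nonneg hL]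
        have : 0 ≤ L * |x| := by positivity
        linarith [Real.exp_le_exp.2 (show -(L * |x|) ≤ L * |x| by linarith)]
      rw [show -(L * (1 - |x|)) = -L + L * |x| by ring, Real.exp_add]
      exact mul_le_mul_of_nonneg_left b1 (Real.exp_pos _).le
    have b := ((Complex.continuous_ofReal.tendsto 0).comp a).add_const w
    rw [Complex.ofReal_zero, zero_add] at b
    exact (continuousAt_cpow_const (Or.inr hw)).tendsto.comp b
  · exact absurd (eq_or_eq_neg_of_abs_eq h) (not_or.2 ⟨h1, h2⟩)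
  · rw [asI, indicator_of_notMem fun k : x ∈ Ioc (-1 : ℝ) 1 =>
      absurd (abs_le.2 ⟨k.1.le, k.2⟩) (not_le.2 h)]
    obtain ⟨C, -, hC⟩ := as_bound hw
    refine squeeze_zero_norm' ?_ (by simpa using (t ((|x| - 1) / 2) (by linarith)).const_mul C)
    filter_upwards [eventually_ge_atTop 0] with L hL
    refine (hC L x _ hL (Or.inr le_rfl)).trans (le_of_eq ?_)
    congr 2
    ring

lemma as_dom {w : ℂ} (hw : w.im ≠ 0) : ∃ C : ℝ, ∀ L x : ℝ, 12 ≤ L →
    Real.exp (5 * |x|) * ‖asK w L x‖ ≤ C * Real.exp (-1 * |x|) ∧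
      Real.exp (5 * |x|) * ‖asI w x‖ ≤ C * Real.exp (-1 * |x|) := by
  obtain ⟨C, C0, hC⟩ := as_bound hw
  have e : ∀ x : ℝ, Real.exp (5 * |x|) * Real.exp (-(12 * (|x| - 1)) / 2) =
      Real.exp 6 * Real.exp (-1 * |x|) := fun x => by
    rw [← Real.exp_add, ← Real.exp_add]
    congr 1
    ring
  have n0 := norm_nonneg (w ^ (-(1 / 2 : ℂ)))
  refine ⟨(C + ‖w ^ (-(1 / 2 : ℂ))‖) * Real.exp 6, fun L x hL => ?_⟩
  have p1 := Real.exp_pos (-(12 * (|x| - 1)) / 2)
  have p2 := Real.exp_pos (5 * |x|)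
  rw [mul_assoc, ← e, mul_left_comm]
  refine ⟨mul_le_mul_of_nonneg_left ((hC L x (12 * (|x| - 1)) (by linarith) ?_).trans
    (by nlinarith)) p2.le, mul_le_mul_of_nonneg_left ?_ p2.le⟩
  · rcases le_total |x| 1 with h | h
    · exact Or.inl (by linarith)
    · exact Or.inr (by nlinarith)
  · by_cases k : x ∈ Ioc (-1 : ℝ) 1
    · rw [asI, indicator_of_mem k]
      have := Real.one_le_exp (show 0 ≤ -(12 * (|x| - 1)) / 2 by
        linarith [abs_le.2 ⟨k.1.le, k.2⟩])
      nlinarith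
    · rw [asI, indicator_of_notMem k, norm_zero]
      positivity

/-- The scaled integral converges to `2 w ^ (-1/2) sinh m / m`, uniformly for `‖m‖ ≤ 5`. -/
lemma leg_asymp {w : ℂ} (hw : w.im ≠ 0) {η : ℝ} (hη : 0 < η) :
    ∀ᶠ L : ℝ in atTop, ∀ m : ℂ, ‖m‖ ≤ 5 →
      ‖((Real.exp (L / 2) / L : ℝ) : ℂ) * leg (1 / 2) (m / L) (Real.exp L * w)
        - w ^ (-(1 / 2 : ℂ)) * ∫ x in (-1 : ℝ)..1, Complex.exp (m * x)‖ ≤ η := by
  obtain ⟨C, hC⟩ := as_dom hw
  have iC := fun c : ℝ => (integrable_exp_abs one_pos).const_mul c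
  have mI : AEStronglyMeasurable (asI w) volume :=
    aestronglyMeasurable_const.indicator measurableSet_Ioc
  have mE : ∀ L, AEStronglyMeasurable (fun x => Real.exp (5 * |x|) * ‖asK w L x - asI w x‖)
      volume := fun L => (Continuous.aestronglyMeasurable (by fun_prop)).mul
        ((as_cont hw L).aestronglyMeasurable.sub mI).norm
  have bE : ∀ L : ℝ, 12 ≤ L → ∀ x, ‖Real.exp (5 * |x|) * ‖asK w L x - asI w x‖‖ ≤
      2 * C * Real.exp (-1 * |x|) := fun L hL x => by
    rw [Real.norm_of_nonneg (by positivity)]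
    have := mul_le_mul_of_nonneg_left (norm_sub_le (asK w L x) (asI w x))
      (Real.exp_pos (5 * |x|)).le
    linarith [(hC L x hL).1, (hC L x hL).2]
  have tE := tendsto_integral_filter_of_dominated_convergence (l := atTop) (μ := volume)
    (F := fun L x => Real.exp (5 * |x|) * ‖asK w L x - asI w x‖) (f := fun _ => 0) _
    (Eventually.of_forall mE)
    ((eventually_ge_atTop 12).mono fun L hL => Eventually.of_forall (bE L hL)) (iC (2 * C)) (by
      filter_upwards [Measure.ae_ne volume 1, Measure.ae_ne volume (-1)] with x h1 h2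
      simpa using (tendsto_iff_norm_sub_tendsto_zero.1 (as_lim hw h1 h2)).const_mul
        (Real.exp (5 * |x|)))
  rw [integral_zero] at tE
  filter_upwards [tE.eventually_le_const hη, eventually_ge_atTop 12] with L h1 hL m hm
  have hx : ∀ x : ℝ, ‖Complex.exp (m * x)‖ ≤ Real.exp (5 * |x|) := fun x => by
    refine (Complex.norm_exp_le_exp_norm _).trans (Real.exp_le_exp.2 ?_)
    rw [norm_mul, Complex.norm_real, Real.norm_eq_abs]
    exact mul_le_mul_of_nonneg_right hm (abs_nonneg x)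
  have mx : AEStronglyMeasurable (fun x : ℝ => Complex.exp (m * x)) volume :=
    Continuous.aestronglyMeasurable (by fun_prop)
  have i1 : Integrable fun x : ℝ => Complex.exp (m * x) * asK w L x :=
    (iC C).mono' (mx.mul (as_cont hw L).aestronglyMeasurable) (Eventually.of_forall fun x => by
      rw [norm_mul]
      exact (mul_le_mul_of_nonneg_right (hx x) (norm_nonneg _)).trans (hC L x hL).1)
  have i2 : Integrable fun x : ℝ => Complex.exp (m * x) * asI w x :=
    (iC C).mono' (mx.mul mI) (Eventually.of_forall fun x => by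
      rw [norm_mul]
      exact (mul_le_mul_of_nonneg_right (hx x) (norm_nonneg _)).trans (hC L x hL).2)
  have e : w ^ (-(1 / 2 : ℂ)) * ∫ x in (-1 : ℝ)..1, Complex.exp (m * x) =
      ∫ x : ℝ, Complex.exp (m * x) * asI w x := by
    rw [intervalIntegral.integral_of_le (by norm_num), ← integral_const_mul,
      ← integral_indicator measurableSet_Ioc]
    refine integral_congr_ae (Eventually.of_forall fun x => ?_)
    by_cases k : x ∈ Ioc (-1 : ℝ) 1
    · simp only [asI, indicator_of_mem k, mul_comm]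
    · simp only [asI, indicator_of_notMem k, mul_zero]
  rw [as_scale hw (by linarith), e, ← integral_sub i1 i2]
  refine (norm_integral_le_of_norm_le ((iC (2 * C)).mono' (mE L)
    (Eventually.of_forall (bE L hL))) (Eventually.of_forall fun x => ?_)).trans h1
  rw [← mul_sub, norm_mul]
  exact mul_le_mul_of_nonneg_right (hx x) (norm_nonneg _)

end Pool.Agent.Lib.MP_322279_an.All
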