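import Pool.Agent.Lib.MP_322279_an.Cone
import Pool.Agent.Lib.MP_322279_an.CapProfile

/-!
Auxiliary definitions for the counterexample in an arbitrary circular cone.
-/

namespace Pool.Agent.Lib.MP_322279_an.All

open MeasureTheory Set Filter Topology Metric
open scoped ContDiff

/-- The circular cone `x₃ > h |x|` cut by the unit ball. -/
def Oh (h : ℝ) : Set E3 := {x | ‖x‖ < 1 ∧ h * ‖x‖ < x 2}

/-- The complement of the closed negative `x₃`-axis. -/
def Dax : Set E3 := {x | x 0 ^ 2 + x 1 ^ 2 ≠ 0 ∨ 0 < x 2}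

/-- The plane cut along `(-∞, -1]`. -/
def Ucut : Set ℂ := {ξ | ξ.im ≠ 0 ∨ -1 < ξ.re}

/-- Mehler's integral; for `p = 1 / 2` a multiple of the Legendre function `P_{μ - 1/2}(ξ)`. -/
noncomputable def leg (p : ℝ) (μ ξ : ℂ) : ℂ :=
  ∫ y : ℝ, Complex.exp (μ * y) * ((Real.cosh y : ℂ) + ξ) ^ (-(p : ℂ))

/-- `q ^ κ G (z q ^ (-1/2))`. -/
noncomputable def Psi (κ : ℂ) (G : ℂ → ℂ) (q : ℂ) (z : ℝ) : ℂ :=
  Complex.exp (κ * Complex.log q) * G (z * Complex.exp (-Complex.log q / 2))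

/-- The homogeneous function with profile `G`. -/
noncomputable def Vf (a κ : ℂ) (G : ℂ → ℂ) (x : E3) : ℂ :=
  Psi κ G (a * ((x 0 ^ 2 + x 1 ^ 2 : ℝ) : ℂ) + ((x 2 ^ 2 : ℝ) : ℂ)) (x 2)

/-- The cut-off at scale `s`: zero for `|x| ≤ s`, one for `|x|² ≥ 2 s²`. -/
noncomputable def cut (s : ℝ) (x : E3) : ℂ := chi (‖x‖ ^ 2 / s ^ 2)

/-- The error term produced by the cut-off at scale `s`. -/
noncomputable def Er (d : Fin 3 → ℂ) (V : E3 → ℂ) (s : ℝ) : E3 → ℂ :=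
  op (diagM d) fun x => cut s x * V x

lemma isOpen_Oh {h : ℝ} : IsOpen (Oh h) := by
  unfold Oh
  refine IsOpen.and ?_ ?_ <;> exact isOpen_lt (by fun_prop) (by fun_prop)

lemma isOpen_Dax : IsOpen Dax := by
  have a : IsOpen {x : E3 | x 0 ^ 2 + x 1 ^ 2 ≠ 0} := isOpen_ne_fun (by fun_prop) continuous_const
  have b : IsOpen {x : E3 | 0 < x 2} := isOpen_lt continuous_const (by fun_prop)
  exact a.union b

lemma isOpen_Ucut : IsOpen Ucut := by
  unfold Ucut
  exact (isOpen_ne_fun Complex.continuous_im continuous_const).union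
    (isOpen_lt continuous_const Complex.continuous_re)

lemma Oh_ball {h : ℝ} : Oh h ⊆ ball 0 1 := fun _ hx => mem_ball_zero_iff.2 hx.1

lemma zero_notMem_Oh {h : ℝ} : (0 : E3) ∉ Oh h := fun k => by simpa using k.2

instance {h : ℝ} : IsFiniteMeasure (volume.restrict (Oh h)) :=
  isFiniteMeasure_restrict.2 ((measure_mono Oh_ball).trans_lt measure_ball_lt_top).ne

/-- The closed cone without its vertex avoids the negative axis. -/
lemma mem_Dax {h : ℝ} (h1 : -1 < h) {x : E3} (x0 : x ≠ 0) (hx : h * ‖x‖ ≤ x 2) : x ∈ Dax := by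
  by_contra k
  simp only [Dax, mem_ofPred_eq, not_or, not_not, not_lt] at k
  have n := norm_sq3 x
  have p := norm_pos_iff.2 x0
  have e : ‖x‖ = -x 2 := by
    refine (pow_left_inj₀ p.le (by linarith [k.2]) two_ne_zero).1 ?_
    rw [n, k.1]; ring
  nlinarith

lemma Oh_Dax {h : ℝ} (h1 : -1 < h) : Oh h ⊆ Dax := fun _ hx =>
  mem_Dax h1 (fun k => zero_notMem_Oh (k ▸ hx)) hx.2.le

lemma smul_mem_Dax {x : E3} {t : ℝ} (ht : 0 < t) (hx : x ∈ Dax) : t • x ∈ Dax := by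
  rcases hx with k | k
  · left
    simp only [PiLp.smul_apply, smul_eq_mul, mul_pow, ← mul_add]
    exact mul_ne_zero (by positivity) k
  · exact Or.inr (mul_pos ht k)

lemma cd_cut (s : ℝ) : ContDiff ℝ ∞ (cut s) :=
  cd_chi.comp ((contDiff_norm_sq ℝ).div_const _)

lemma cut_zero {s : ℝ} (hs : 0 < s) {x : E3} (hx : ‖x‖ ≤ s) : cut s x = 0 :=
  chi_zero ((div_le_one (by positivity)).2 (pow_le_pow_left₀ (norm_nonneg _) hx 2))

lemma cut_one {s : ℝ} (hs : 0 < s) {x : E3} (hx : 2 * s ≤ ‖x‖) : cut s x = 1 := by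
  refine chi_one ((le_div_iff₀ (by positivity)).2 ?_)
  nlinarith [pow_le_pow_left₀ (by positivity) hx 2]

lemma norm_cut (s : ℝ) (x : E3) : ‖cut s x‖ ≤ 1 := by
  obtain ⟨C, -, hC⟩ := chi_bound
  exact (hC _).1

end Pool.Agent.Lib.MP_322279_an.All
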