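import Pool.Agent.Lib.MP_322279_an.All.Err

/-!
The error term tested against a function that is `p`-integrable near the vertex.
-/

namespace Pool.Agent.Lib.MP_322279_an.All

open MeasureTheory Set Filter Topology Metric
open scoped ContDiff

/-- Hölder's inequality on a part of a ball. -/
lemma holder_ball {u : E3 → ℂ} {S T : Set E3} {p t : ℝ} (p1 : 1 ≤ p) (t0 : 0 ≤ t)
    (hST : S ⊆ T) (hS : S ⊆ closedBall 0 t) (hu : MemLp u (ENNReal.ofReal p) (volume.restrict T)) :
    IntegrableOn u S ∧ ∫ x in S, ‖u x‖ ≤ (eLpNorm u (ENNReal.ofReal p) (volume.restrict T)).toReal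
      * (t ^ 3 * volume.real (ball (0 : E3) 1)) ^ (1 - 1 / p) := by
  have fin : volume S < ⊤ := (measure_mono hS).trans_lt measure_closedBall_lt_top
  have : IsFiniteMeasure (volume.restrict S) := isFiniteMeasure_restrict.2 fin.ne
  have le : volume.restrict S ≤ volume.restrict T := Measure.restrict_mono hST le_rfl
  have p2 : (1 : ENNReal) ≤ ENNReal.ofReal p := ENNReal.one_le_ofReal.2 p1
  have m := hu.mono_measure le
  have e0 : 0 ≤ 1 - 1 / p := by
    rw [sub_nonneg, div_le_one (by linarith)]; exact p1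
  refine ⟨m.integrable p2, ?_⟩
  have k := eLpNorm_le_eLpNorm_mul_rpow_measure_univ p2 m.1
  rw [ENNReal.toReal_one, div_one, ENNReal.toReal_ofReal (by linarith), Measure.restrict_apply_univ,
    eLpNorm_one_eq_lintegral_enorm] at k
  rw [integral_norm_eq_lintegral_enorm m.1, ← vol_ball 0 t0, measureReal_def, ENNReal.toReal_rpow,
    ← ENNReal.toReal_mul]
  refine ENNReal.toReal_mono (ENNReal.mul_ne_top hu.2.ne
    (ENNReal.rpow_ne_top_of_nonneg e0 measure_closedBall_lt_top.ne)) (k.trans ?_)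
  exact mul_le_mul' (eLpNorm_mono_measure _ le) (ENNReal.rpow_le_rpow (measure_mono hS) e0)

lemma er_limp {h C r ρ p : ℝ} {ν : ℂ} {d : Fin 3 → ℂ} {V u : E3 → ℂ} {Ω : Set E3}
    (hΩ : IsOpen Ω) (hρ : Ω ∩ ball 0 ρ = Oh h ∩ ball 0 ρ) (h1 : -1 < h)
    (p1 : 1 ≤ p) (hν : 3 / p - 1 < ν.re) (pde : ∀ x ∈ Dax, op (diagM d) V x = 0) (C0 : 0 ≤ C)
    (hC : ∀ s, 0 < s → ∀ x ∈ Oh h, ‖Er d V s x‖ ≤ C * s ^ ν.re / s ^ 2) (hr : 0 < r)
    (hu : MemLp u (ENNReal.ofReal p) (volume.restrict (Ω ∩ ball 0 r))) :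
    Tendsto (fun s => ∫ x in Ω, u x * (ball 0 ρ).indicator (Er d V s) x) (𝓝[>] 0) (𝓝 0) := by
  set v := volume.real (ball (0 : E3) 1) with hv
  have v0 : 0 ≤ v := measureReal_nonneg
  set N := (eLpNorm u (ENNReal.ofReal p) (volume.restrict (Ω ∩ ball 0 r))).toReal with hN
  have near : ∀ x ∈ Ω, x ∈ ball (0 : E3) ρ → x ∈ Oh h := fun x hx k =>
    (show x ∈ Oh h ∩ ball 0 ρ from hρ ▸ ⟨hx, k⟩).1
  have t1 : Tendsto (fun s : ℝ => N * C * (8 * v) ^ (1 - 1 / p) * s ^ (ν.re + 1 - 3 / p)) (𝓝[>] 0)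
      (𝓝 0) := by
    have := ((Real.continuousAt_rpow_const 0 (ν.re + 1 - 3 / p)
      (Or.inr (by linarith))).tendsto.mono_left
      (nhdsWithin_le_nhds (s := Ioi 0))).const_mul (N * C * (8 * v) ^ (1 - 1 / p))
    rwa [Real.zero_rpow (by linarith), mul_zero] at this
  refine squeeze_zero_norm' ?_ t1
  filter_upwards [Ioo_mem_nhdsGT (half_pos hr)] with s hs
  have s0 := hs.1
  obtain ⟨i1, i2⟩ := holder_ball (S := Ω ∩ closedBall 0 (2 * s)) p1 (by positivity)
    (inter_subset_inter_right _ (closedBall_subset_ball (by linarith [hs.2]))) inter_subset_right hu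
  rw [setIntegral_eq_of_subset_of_forall_sdiff_eq_zero hΩ.measurableSet
    (inter_subset_left (t := closedBall 0 (2 * s))) fun x hx => ?_]
  · refine (norm_integral_le_of_norm_le (i1.norm.mul_const (C * s ^ ν.re / s ^ 2)) ?_).trans ?_
    · filter_upwards [ae_restrict_mem (hΩ.measurableSet.inter measurableSet_closedBall)] with x hx
      rw [norm_mul]
      refine mul_le_mul_of_nonneg_left ?_ (norm_nonneg _)
      by_cases k : x ∈ ball (0 : E3) ρ
      · rw [indicator_of_mem k]; exact hC s s0 x (near x hx.1 k)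
      · rw [indicator_of_notMem k, norm_zero]; positivity
    · rw [integral_mul_const]
      refine (mul_le_mul_of_nonneg_right i2 (by positivity)).trans (le_of_eq ?_)
      have e1 : ((2 * s) ^ 3 * v) ^ (1 - 1 / p) = (8 * v) ^ (1 - 1 / p) * s ^ (3 - 3 / p) := by
        rw [show (2 * s) ^ 3 * v = 8 * v * s ^ (3 : ℝ) by rw [Real.rpow_ofNat]; ring,
          Real.mul_rpow (by positivity) (by positivity), ← Real.rpow_mul s0.le]
        congr 2; ring
      have e2 : s ^ (ν.re + 1 - 3 / p) = s ^ (3 - 3 / p) * s ^ ν.re / s ^ 2 := by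
        rw [← Real.rpow_add s0, ← Real.rpow_two, ← Real.rpow_sub s0]
        congr 1; ring
      rw [← hv, ← hN, e1, e2]; ring
  · by_cases k : x ∈ ball (0 : E3) ρ
    · rw [indicator_of_mem k, er_zero pde s0 (Oh_Dax h1 (near x hx.1 k)) (Or.inr
        (not_le.1 fun k2 => hx.2 ⟨hx.1, mem_closedBall_zero_iff.2 k2⟩)), mul_zero]
    · rw [indicator_of_notMem k, mul_zero]

end Pool.Agent.Lib.MP_322279_an.All
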