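import Pool.Agent.Lib.MP_322279_an.All.Trunc

/-!
Green's identity for the doubly truncated homogeneous solution in a domain that coincides with the
cone near the vertex.
-/

namespace Pool.Agent.Lib.MP_322279_an.All

open MeasureTheory Set Filter Topology Metric
open scoped ContDiff

lemma opg_congr {d : Fin 3 → ℂ} {φ ψ : E3 → ℂ} {x : E3} (h : φ =ᶠ[𝓝 x] ψ) :
    op (diagM d) φ x = op (diagM d) ψ x := by
  rw [op_diag, op_diag]
  exact Finset.sum_congr rfl fun i _ => by rw [pd_congr (pd_congr' h)]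

lemma opg_zero {d : Fin 3 → ℂ} {φ : E3 → ℂ} {x : E3} (h : φ =ᶠ[𝓝 x] fun _ => 0) :
    op (diagM d) φ x = 0 := by
  rw [opg_congr h, op_diag]
  refine Finset.sum_eq_zero fun i _ => ?_
  have : pd i (fun _ : E3 => (0 : ℂ)) = fun _ => 0 := funext fun _ => pd_const 0
  rw [this, pd_const, mul_zero]

lemma pdg_sub {φ ψ : E3 → ℂ} {x : E3} {i : Fin 3} (h1 : DifferentiableAt ℝ φ x)
    (h2 : DifferentiableAt ℝ ψ x) : pd i (fun y => φ y - ψ y) x = pd i φ x - pd i ψ x := by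
  rw [pd, fderiv_fun_sub h1 h2]; rfl

lemma opg_sub {d : Fin 3 → ℂ} {φ ψ : E3 → ℂ} {D : Set E3} {x : E3} (hD : IsOpen D)
    (c1 : ContDiffOn ℝ ∞ φ D) (c2 : ContDiffOn ℝ ∞ ψ D) (hx : x ∈ D) :
    op (diagM d) (fun y => φ y - ψ y) x = op (diagM d) φ x - op (diagM d) ψ x := by
  simp only [op_diag, ← Finset.sum_sub_distrib]
  refine Finset.sum_congr rfl fun i _ => ?_
  have : pd i (fun y => φ y - ψ y) =ᶠ[𝓝 x] fun y => pd i φ y - pd i ψ y := by
    filter_upwards [hD.mem_nhds hx] with y hy using pdg_sub (diffAt hD c1 hy) (diffAt hD c2 hy)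
  rw [pd_congr this, pdg_sub (diffAt hD (contDiffOn_pd hD c1) hx)
    (diffAt hD (contDiffOn_pd hD c2) hx), mul_sub]

/-- A product that vanishes far from the origin is smooth off the near part of the axis. -/
lemma cd_far {θ V : E3 → ℂ} {t : ℝ} (cθ : ContDiff ℝ ∞ θ) (cV : ContDiffOn ℝ ∞ V Dax)
    (z : ∀ x, t < ‖x‖ → θ x = 0) :
    ContDiffOn ℝ ∞ (fun x => θ x * V x) (Dax ∪ {x | t < ‖x‖}) := by
  rintro x (hx | hx)
  · exact ((cθ.contDiffOn.mul cV).contDiffAt (isOpen_Dax.mem_nhds hx)).contDiffWithinAt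
  · refine ((contDiffAt_const (c := (0 : ℂ))).congr_of_eventuallyEq ?_).contDiffWithinAt
    filter_upwards [(isOpen_lt continuous_const continuous_norm).mem_nhds hx] with y hy
    rw [z y hy, zero_mul]

lemma sub_far {h ρ t : ℝ} {Ω : Set E3} (h1 : -1 < h) (hρ : Ω ∩ ball 0 ρ = Oh h ∩ ball 0 ρ)
    (ht : t < ρ) : Ω ⊆ Dax ∪ {x | t < ‖x‖} := fun x hx => by
  by_cases k : t < ‖x‖
  · exact Or.inr k
  · have : x ∈ Oh h ∩ ball 0 ρ := hρ ▸ ⟨hx, mem_ball_zero_iff.2 (by linarith)⟩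
    exact Or.inl (Oh_Dax h1 this.1)

lemma trunc_gen {h s s₀ ρ L : ℝ} {ν : ℂ} {d : Fin 3 → ℂ} {V : E3 → ℂ} {Ω : Set E3}
    [IsFiniteMeasure (volume.restrict Ω)] (hΩ : IsOpen Ω)
    (hρ : Ω ∩ ball 0 ρ = Oh h ∩ ball 0 ρ) (ρ1 : ρ ≤ 1) (h1 : -1 < h)
    (hν : ν.re ≤ 0) (cV : ContDiffOn ℝ ∞ V Dax)
    (hom : ∀ t, 0 < t → ∀ x ∈ Dax, V (t • x) = pw ν t * V x)
    (lip : ∀ x : E3, ‖x‖ = 1 → h ≤ x 2 → ‖V x‖ ≤ L * (x 2 - h))
    (hs : 0 < s) (hs' : s ≤ s₀) (h0 : 4 * s₀ < ρ)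
    {u f : E3 → ℂ} {g : Fin 3 → E3 → ℂ} (hu : HG Ω u g)
    (hf : MemLp f 2 (volume.restrict Ω))
    (w : ∀ φ, IsTest Ω φ →
      ∑ i, d i * ∫ x in Ω, g i x * pd i φ x = -∫ x in Ω, f x * φ x) :
    ∫ x in Ω, (u x * (ball 0 ρ).indicator (Er d V s) x - u x * (ball 0 ρ).indicator (Er d V s₀) x)
      = ∫ x in Ω, f x * ((cut s x - cut s₀ x) * V x) := by
  have s0 : 0 < s₀ := hs.trans_le hs'
  set ψ : E3 → ℂ := fun x => (cut s x - cut s₀ x) * V x with hψ
  set D : Set E3 := Dax ∪ {x | 2 * s₀ < ‖x‖} with hD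
  set K : Set E3 := {x | s ≤ ‖x‖ ∧ ‖x‖ ≤ 2 * s₀ ∧ h * ‖x‖ ≤ x 2} with hK
  have oD : IsOpen D := isOpen_Dax.union (isOpen_lt continuous_const continuous_norm)
  have cK : IsCompact K := by
    refine (isCompact_closedBall (0 : E3) (2 * s₀)).of_isClosed_subset ?_
      fun x hx => mem_closedBall_zero_iff.2 hx.2.1
    refine IsClosed.and ?_ (IsClosed.and ?_ ?_) <;> exact isClosed_le (by fun_prop) (by fun_prop)
  have KD : K ⊆ D := fun x hx =>
    Or.inl (mem_Dax h1 (norm_pos_iff.1 (hs.trans_le hx.1)) hx.2.2)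
  have OD : Ω ⊆ D := sub_far h1 hρ (by linarith)
  have near : ∀ x ∈ Ω, ‖x‖ < ρ → x ∈ Oh h := fun x hx k =>
    (show x ∈ Oh h ∩ ball 0 ρ from hρ ▸ ⟨hx, mem_ball_zero_iff.2 k⟩).1
  have far : ∀ x : E3, 2 * s₀ < ‖x‖ → cut s x - cut s₀ x = 0 := fun x k => by
    rw [cut_one hs (by linarith), cut_one s0 k.le, sub_self]
  have v : ∀ x : E3, ‖x‖ < s ∨ 2 * s₀ < ‖x‖ → ψ x = 0 := by
    rintro x (k | k)
    · simp [hψ, cut_zero hs k.le, cut_zero s0 (k.le.trans hs')]
    · simp only [hψ, far x k, zero_mul]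
  have gd : Good Ω D K ψ :=
    ⟨cd_far ((cd_cut s).sub (cd_cut s₀)) cV far, fun x hx hx' => v x <| by
      by_contra k
      push Not at k
      exact hx' ⟨k.1, k.2, (near x hx (by linarith [k.2])).2.le⟩⟩
  set θ : E3 → ℝ := fun x => Real.smoothTransition (‖x‖ ^ 2 / (2 * s₀) ^ 2 - 1) with hθ
  have θc : ContDiff ℝ ∞ θ := Real.smoothTransition.contDiff.comp
    (((contDiff_norm_sq ℝ).div_const _).sub contDiff_const)
  have θ0 : ∀ x : E3, ‖x‖ ≤ 2 * s₀ → θ x = 0 := fun x k => by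
    have := cut_zero (s := 2 * s₀) (by positivity) k
    rwa [cut, chi, Complex.ofReal_eq_zero] at this
  have θ1 : ∀ x : E3, 4 * s₀ ≤ ‖x‖ → θ x = 1 := fun x k => by
    have := cut_one (s := 2 * s₀) (x := x) (by positivity) (by linarith)
    rwa [cut, chi, Complex.ofReal_eq_one] at this
  have bp : ∀ x ∈ Ω, 0 < (x 2 - h * ‖x‖) * (1 - θ x) + θ x := fun x hx => by
    by_cases k : ‖x‖ < ρ
    · have a := sub_pos.2 (near x hx k).2
      have b : 0 ≤ θ x := Real.smoothTransition.nonneg _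
      have c : θ x ≤ 1 := Real.smoothTransition.le_one _
      rcases b.eq_or_lt with e | e
      · rw [← e]; linarith
      · nlinarith [mul_nonneg a.le (sub_nonneg.2 c)]
    · rw [θ1 x (by linarith)]; norm_num
  have hg := good_hg gd hΩ oD OD cK KD
    (b := fun x => (x 2 - h * ‖x‖) * (1 - θ x) + θ x) (M := 2 * (s ^ ν.re * (|L| / s)))
    (((by fun_prop : Continuous fun x : E3 => x 2 - h * ‖x‖).mul
      (continuous_const.sub θc.continuous)).add θc.continuous)
    (fun x hx => by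
      have x0 : x ≠ 0 := by
        rintro rfl
        rcases hx with (k | k) | k
        · simp at k
        · simp at k
        · simp only [mem_ofPred_eq, norm_zero] at k; linarith
      exact (((((cd_coord 2).contDiffAt).sub (contDiffAt_const.mul (contDiffAt_norm ℝ x0))).mul
        (contDiffAt_const.sub θc.contDiffAt)).add θc.contDiffAt).contDiffWithinAt)
    bp
    (fun x hx hb => by
      rw [θ0 x hx.2.1] at hb
      have : x ∈ Ω ∩ ball 0 ρ := hρ ▸ ⟨⟨by linarith [hx.2.1], by linarith⟩,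
        mem_ball_zero_iff.2 (by linarith [hx.2.1])⟩
      exact this.1)
    (fun x hx => by
      by_cases k : ‖x‖ < s ∨ 2 * s₀ < ‖x‖
      · exact Or.inl (v x k)
      push Not at k
      have k2 := not_le.1 fun k2 => hx ⟨k.1, k.2, k2⟩
      refine Or.inr ?_
      rw [θ0 x k.2]; linarith)
    (fun x hx => by
      by_cases k : ‖x‖ < s ∨ 2 * s₀ < ‖x‖
      · have := bp x hx
        rw [v x k, norm_zero]; positivity
      push Not at k
      have xo := near x hx (by linarith [k.2])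
      have p := hs.trans_le k.1
      have b0 := sub_pos.2 xo.2
      set y : E3 := ‖x‖⁻¹ • x with hy
      have y2 : y 2 - h = (x 2 - h * ‖x‖) / ‖x‖ := by
        rw [hy, PiLp.smul_apply, smul_eq_mul]; field_simp
      have y3 : 0 ≤ y 2 - h := by rw [y2]; positivity
      have n := lip y (norm_smul_inv_norm (norm_pos_iff.1 p)) (by linarith)
      have e := hom _ p y (smul_mem_Dax (inv_pos.2 p) (Oh_Dax h1 xo))
      rw [hy, smul_inv_smul₀ p.ne', ← hy] at e
      rw [θ0 x k.2, sub_zero, mul_one, add_zero]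
      simp only [hψ]
      rw [norm_mul, e, norm_mul, norm_pw p]
      have n2 : ‖V y‖ ≤ |L| / s * (x 2 - h * ‖x‖) := by
        refine n.trans ((mul_le_mul_of_nonneg_right (le_abs_self L) y3).trans ?_)
        rw [y2, div_mul_eq_mul_div, mul_div_assoc]
        gcongr
        exact k.1
      calc _ ≤ 2 * (s ^ ν.re * (|L| / s * (x 2 - h * ‖x‖))) :=
            mul_le_mul ((norm_sub_le _ _).trans (by linarith [norm_cut s x, norm_cut s₀ x]))
              (mul_le_mul (Real.rpow_le_rpow_of_nonpos hs k.1 hν) n2 (norm_nonneg _)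
                (by positivity)) (by positivity) (by norm_num)
        _ = _ := by ring)
  refine Eq.trans (setIntegral_congr_fun hΩ.measurableSet fun x hx => ?_)
    (gd.dual hΩ oD OD cK KD hg hu hf w)
  by_cases k : ‖x‖ < ρ
  · have m := mem_ball_zero_iff.2 k
    have e : ψ = fun y => cut s y * V y - cut s₀ y * V y := funext fun y => sub_mul _ _ _
    simp only [indicator_of_mem m]
    rw [e, opg_sub isOpen_Dax ((cd_cut s).contDiffOn.mul cV) ((cd_cut s₀).contDiffOn.mul cV)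
      (Oh_Dax h1 (near x hx k)), mul_sub]
    rfl
  · have m : x ∉ ball (0 : E3) ρ := fun m => k (mem_ball_zero_iff.1 m)
    simp only [indicator_of_notMem m]
    rw [opg_zero, sub_self, mul_zero]
    filter_upwards [(isOpen_lt continuous_const continuous_norm).mem_nhds
      (show 2 * s₀ < ‖x‖ by linarith)] with y hy using v y (Or.inr hy)

end Pool.Agent.Lib.MP_322279_an.All
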