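import Pool.Agent.Lib.MP_322279_an.All.Hardy
import Pool.Agent.Lib.MP_322279_an.All.LimP
import Pool.Agent.Lib.MP_322279_an.All.TruncGen

/-!
The duality argument in a domain that coincides with a circular cone near the vertex.
-/

namespace Pool.Agent.Lib.MP_322279_an.All

open MeasureTheory Set Filter Topology Metric
open scoped ContDiff

/-- A ball in the cone on which the homogeneous function is bounded from below. -/
lemma ball_low {h : ℝ} {ν : ℂ} {V : E3 → ℂ} (h1 : -1 < h) (h2 : h < 1)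
    (cV : ContDiffOn ℝ ∞ V Dax) (hom : ∀ t, 0 < t → ∀ x ∈ Dax, V (t • x) = pw ν t * V x)
    (ne : V (EuclideanSpace.single 2 1) ≠ 0) :
    ∃ (p : E3) (r c : ℝ), 0 < r ∧ 0 < c ∧ ∀ t, 0 < t → t ≤ 1 → ∀ x ∈ closedBall (t • p) (t * r),
      x ∈ Oh h ∧ ‖x‖ < t ∧ t ^ ν.re * c ≤ ‖V x‖ := by
  set e : E3 := EuclideanSpace.single 2 1 with he
  have e1 : ‖e‖ = 1 := by simp [he]
  have e2 : e 2 = 1 := by simp [he]
  have eD : e ∈ Dax := Or.inr (by rw [e2]; exact one_pos)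
  set p : E3 := (1 / 2 : ℝ) • e with hp
  have pn : ‖p‖ = 1 / 2 := by rw [hp, norm_smul, e1]; norm_num
  have p2 : p 2 = 1 / 2 := by rw [hp, PiLp.smul_apply, e2]; norm_num
  have pm : p ∈ Oh h := ⟨by rw [pn]; norm_num, by rw [pn, p2]; linarith⟩
  have n0 : 0 < ‖V p‖ := by
    rw [hp, hom _ (by norm_num) e eD, norm_pos_iff]
    exact mul_ne_zero (Complex.exp_ne_zero _) ne
  have c : ContinuousAt (fun x => ‖V x‖) p :=
    (cV.continuousOn.continuousAt (isOpen_Dax.mem_nhds (Oh_Dax h1 pm))).norm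
  obtain ⟨r, r0, hr⟩ := nhds_basis_closedBall.eventually_iff.1
    ((c.eventually (lt_mem_nhds (half_lt_self n0))).and (isOpen_Oh.mem_nhds pm))
  refine ⟨p, r, _, r0, half_pos n0, fun t t0 t1 x hx => ?_⟩
  obtain ⟨y, rfl⟩ : ∃ y : E3, x = t • y := ⟨t⁻¹ • x, by rw [smul_inv_smul₀ t0.ne']⟩
  rw [mem_closedBall, dist_smul₀, Real.norm_of_nonneg t0.le] at hx
  obtain ⟨y1, y2⟩ := hr (le_of_mul_le_mul_left hx t0)
  have n : ‖t • y‖ = t * ‖y‖ := by rw [norm_smul, Real.norm_of_nonneg t0.le]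
  have k : ‖t • y‖ < t := by rw [n]; exact mul_lt_of_lt_one_right t0 y2.1
  refine ⟨⟨k.trans_le t1, ?_⟩, k, ?_⟩
  · rw [n, PiLp.smul_apply, smul_eq_mul, mul_left_comm]
    exact mul_lt_mul_of_pos_left y2.2 t0
  · rw [hom t t0 y (Oh_Dax h1 y2), norm_mul, norm_pw t0]
    exact mul_le_mul_of_nonneg_left y1.le (Real.rpow_nonneg t0.le _)

theorem dual_gen {h p c L ρ R : ℝ} {ν : ℂ} {d : Fin 3 → ℂ} {V : E3 → ℂ} {Ω : Set E3}
    (hΩ : IsOpen Ω) (R0 : 0 < R) (hR : Ω ⊆ ball 0 R) (ρ0 : 0 < ρ) (ρ1 : ρ ≤ 1)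
    (hρ : Ω ∩ ball 0 ρ = Oh h ∩ ball 0 ρ) (h1 : -1 < h) (h2 : h < 1)
    (hc : 0 < c) (hd : ∀ i, c ≤ (d i).re) (p1 : 1 ≤ p) (n1 : 3 / p - 1 < ν.re) (n2 : ν.re ≤ -1 / 2)
    (cV : ContDiffOn ℝ ∞ V Dax) (hom : ∀ t, 0 < t → ∀ x ∈ Dax, V (t • x) = pw ν t * V x)
    (pde : ∀ x ∈ Dax, op (diagM d) V x = 0)
    (lip : ∀ x : E3, ‖x‖ = 1 → h ≤ x 2 → ‖V x‖ ≤ L * (x 2 - h))
    (ne : V (EuclideanSpace.single 2 1) ≠ 0) :
    ∃ f, IsTest Ω f ∧ (∀ x, (f x).im = 0) ∧ ∀ u, IsSolution (diagM d) Ω f u →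
      ∀ r, 0 < r → ¬ MemLp u (ENNReal.ofReal p) (volume.restrict (Ω ∩ ball 0 r)) := by
  by_contra H
  push Not at H
  have : IsFiniteMeasure (volume.restrict Ω) :=
    isFiniteMeasure_restrict.2 ((measure_mono hR).trans_lt measure_ball_lt_top).ne
  have hν : ν.re ≤ 0 := by linarith
  have ms := hΩ.measurableSet
  have back : ∀ x ∈ Oh h, ‖x‖ < ρ → x ∈ Ω := fun x hx k =>
    (show x ∈ Ω ∩ ball 0 ρ from hρ ▸ ⟨hx, mem_ball_zero_iff.2 k⟩).1
  have z0 : (0 : E3) ∉ Ω := fun k =>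
    zero_notMem_Oh (show (0 : E3) ∈ Oh h ∩ ball 0 ρ from hρ ▸ ⟨k, mem_ball_self ρ0⟩).1
  obtain ⟨C, C0, hC⟩ := er_bd (d := d) h1 cV hom pde
  set T : ℝ → E3 → ℂ := fun s => (ball 0 ρ).indicator (Er d V s) with hT
  have mR : ∀ s, 0 < s → MemLp (T s) 2 (volume.restrict Ω) := fun s hs => by
    rw [hT, memLp_indicator_iff_restrict measurableSet_ball,
      Measure.restrict_restrict measurableSet_ball, inter_comm, hρ]
    exact (er_mem h1 cV (hC s hs)).mono_measure (Measure.restrict_mono inter_subset_left le_rfl)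
  set s₀ : ℝ := ρ / 8 with hs₀
  have q0 : 0 < s₀ := by positivity
  have q1 : 4 * s₀ < ρ := by rw [hs₀]; linarith
  obtain ⟨W, G, hW, wW⟩ := exists_weakR hΩ R0 hR hc hd (mR s₀ q0)
  set Y : E3 → ℂ := fun x => (1 - cut s₀ x) * V x with hY
  have cY : ContDiffOn ℝ ∞ Y Ω :=
    (cd_far (t := 2 * s₀) (contDiff_const.sub (cd_cut s₀)) cV fun x k => by
      rw [cut_one q0 k.le, sub_self]).mono (sub_far h1 hρ (by linarith))
  have key : ∀ f, IsTest Ω f → (∀ x, (f x).im = 0) → ∫ x in Ω, f x * (W x + Y x) = 0 := by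
    intro f hf fr
    obtain ⟨u, ⟨hu, su⟩, r, hr, hM⟩ := H f hf fr
    obtain ⟨g, hu⟩ := inH10_iff.1 hu
    have w : ∀ φ, IsTest Ω φ →
        ∑ i, d i * ∫ x in Ω, g i x * pd i φ x = -∫ x in Ω, f x * φ x := fun φ hφ => by
      rw [hu.green_test hΩ hφ, su φ hφ]
    have e1 := hW.extend hu.2.1 (hf.memLp _) w
    have e2 := hu.extend hW.2.1 (mR s₀ q0) wW
    have e3 : ∫ x in Ω, f x * W x = ∫ x in Ω, u x * T s₀ x := by
      refine neg_injective (e1.symm.trans (Eq.trans ?_ (e2.trans ?_))) <;> simp only [mul_comm]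
    obtain ⟨m, m0, hm'⟩ := hf.2.1.isCompact.exists_forall_le' (f := fun x : E3 => ‖x‖) (a := 0)
      (by fun_prop) fun x hx => norm_pos_iff.2 fun k => z0 (k ▸ hf.2.2 hx)
    have lim : Tendsto (fun s => ∫ x in Ω, u x * T s x) (𝓝[>] 0) (𝓝 0) :=
      er_limp hΩ hρ h1 p1 n1 pde C0 hC hr hM
    have e4 : (0 : ℂ) = (∫ x in Ω, u x * T s₀ x) + ∫ x in Ω, f x * Y x := by
      refine tendsto_nhds_unique lim (tendsto_const_nhds.congr' ?_)
      filter_upwards [Ioo_mem_nhdsGT (lt_min q0 (half_pos m0))] with s hs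
      have k := trunc_gen hΩ hρ ρ1 h1 hν cV hom lip hs.1 (hs.2.le.trans (min_le_left _ _)) q1 hu
        (hf.memLp _) w
      have iu : ∀ s, 0 < s → Integrable (fun x => u x * T s x) (volume.restrict Ω) :=
        fun s hs => hu.1.integrable_mul (mR s hs)
      rw [integral_sub (iu s hs.1) (iu s₀ q0), sub_eq_iff_eq_add'] at k
      rw [k]
      congr 1
      refine integral_congr_ae (Eventually.of_forall fun x => ?_)
      by_cases hx : x ∈ tsupport f
      · have : 2 * s ≤ ‖x‖ := by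
          linarith [hm' x hx, hs.2.trans_le (min_le_right _ _)]
        simp only [cut_one hs.1 this, hY]
      · simp only [image_eq_zero_of_notMem_tsupport hx, zero_mul]
    simp only [mul_add]
    have iw : Integrable (fun x => f x * W x) (volume.restrict Ω) :=
      (hf.memLp _).integrable_mul hW.1
    rw [integral_add iw (hf.mul hΩ hf.2.2 cY).integrable.integrableOn, e3, ← e4]
  have ae : ∀ᵐ x ∂volume.restrict Ω, W x + Y x = 0 := by
    rw [ae_restrict_iff' ms]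
    refine hΩ.ae_eq_zero_of_integral_contDiff_smul_eq_zero (f := fun x => W x + Y x)
      ((IntegrableOn.locallyIntegrableOn (hW.1.integrable one_le_two)).add
        (cY.continuousOn.locallyIntegrableOn ms)) fun g g1 g2 g3 => ?_
    have t : IsTest Ω fun x => (g x : ℂ) := ⟨Complex.ofRealCLM.contDiff.comp g1,
      g2.comp_left (g := fun z : ℝ => (z : ℂ)) (by simp), (closure_mono
        (Function.support_comp_subset (g := fun z : ℝ => (z : ℂ)) (by simp) g)).trans g3⟩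
    rw [← key _ t fun x => Complex.ofReal_im _,
      setIntegral_eq_integral_of_forall_compl_eq_zero fun x hx => by
      rw [image_eq_zero_of_notMem_tsupport fun k => hx (g3 k)]; simp]
    simp only [Complex.real_smul]
  obtain ⟨y, r, c, r0, c0, hb⟩ := ball_low h1 h2 cV hom ne
  set v := volume.real (ball (0 : E3) 1)
  have v0 : 0 < v := ENNReal.toReal_pos (measure_ball_pos _ _ one_pos).ne' measure_ball_lt_top.ne
  have iW : IntegrableOn (fun x => ‖W x‖ ^ 2) Ω :=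
    (memLp_two_iff_integrable_sq_norm hW.1.1).1 hW.1
  have K0 : 0 < c ^ 2 * r ^ 3 * v := by positivity
  obtain ⟨t, i1, t0, t2⟩ := ((hg_hardy_small hW hΩ z0 (half_pos K0)).and
    (Ioo_mem_nhdsGT q0)).exists
  have t1 : t ≤ 1 := by linarith
  have hb' := hb t t0 t1
  have sub : closedBall (t • y) (t * r) ⊆ Ω ∩ ball 0 t := fun x hx =>
    ⟨back x (hb' x hx).1 (by linarith [(hb' x hx).2.1]), mem_ball_zero_iff.2 (hb' x hx).2.1⟩
  have i2 := setIntegral_mono_set (iW.mono_set inter_subset_left)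
    (Eventually.of_forall fun x => sq_nonneg _) sub.eventuallyLE
  have i3 : ∫ _ in closedBall (t • y) (t * r), (t ^ ν.re * c) ^ 2
      ≤ ∫ x in closedBall (t • y) (t * r), ‖W x‖ ^ 2 := by
    refine integral_mono_ae (integrableOn_const measure_closedBall_lt_top.ne)
      (iW.mono_set (sub.trans inter_subset_left)) ?_
    filter_upwards [ae_restrict_of_ae_restrict_of_subset (sub.trans inter_subset_left) ae,
      ae_restrict_mem measurableSet_closedBall] with x k1 k2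
    obtain ⟨-, b2, b3⟩ := hb' x k2
    rw [eq_neg_of_add_eq_zero_left k1, norm_neg, hY]
    simp only [cut_zero q0 (b2.le.trans t2.le), sub_zero, one_mul]
    exact pow_le_pow_left₀ (by positivity) b3 2
  rw [setIntegral_const, vol_ball _ (by positivity), smul_eq_mul] at i3
  have e : (t * r) ^ 3 * v * (t ^ ν.re * c) ^ 2
      = t ^ 2 * (t ^ (2 * ν.re + 1) * (c ^ 2 * r ^ 3 * v)) := by
    rw [Real.rpow_add_one t0.ne', mul_comm 2, Real.rpow_mul t0.le, Real.rpow_two]; ring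
  have big : 1 ≤ t ^ (2 * ν.re + 1) :=
    Real.one_le_rpow_of_pos_of_le_one_of_nonpos t0 t1 (by linarith)
  have := mul_le_mul_of_nonneg_left (le_mul_of_one_le_left K0.le big) (sq_nonneg t)
  have := mul_pos (show 0 < t ^ 2 by positivity) K0
  linarith

end Pool.Agent.Lib.MP_322279_an.All
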