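import Pool.Agent.Lib.MP_322279_an.All.Defs

/-!
The error term produced by cutting off a homogeneous solution near the vertex.
-/

namespace Pool.Agent.Lib.MP_322279_an.All

open MeasureTheory Set Filter Topology Metric
open scoped ContDiff

variable {h σ s : ℝ} {ν : ℂ} {d : Fin 3 → ℂ} {V : E3 → ℂ}

lemma er_congr {φ ψ : E3 → ℂ} {x : E3} (k : φ =ᶠ[𝓝 x] ψ) :
    op (diagM d) φ x = op (diagM d) ψ x := by
  rw [op_diag, op_diag]
  exact Finset.sum_congr rfl fun i _ => by rw [pd_congr (pd_congr' k)]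

lemma er_pd (c : ℂ) (t : ℝ) (F : E3 → ℂ) (i : Fin 3) :
    pd i (fun y => c * F (t • y)) = fun x => c * t * pd i F (t • x) := by
  funext x
  have e : fderiv ℝ (fun y => c * F (t • y)) x = c • fderiv ℝ (fun y => F (t • y)) x :=
    congrFun (fderiv_const_smul_field (𝕜 := ℝ) (f := fun y => F (t • y)) c) x
  rw [pd, e, fderiv_comp_smul, pd]
  simp [mul_assoc]

/-- The error term lives in the shell `s ≤ |x| ≤ 2 s`. -/
lemma er_zero (pde : ∀ x ∈ Dax, op (diagM d) V x = 0) (hs : 0 < s) {x : E3} (hx : x ∈ Dax)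
    (hx' : ‖x‖ < s ∨ 2 * s < ‖x‖) : Er d V s x = 0 := by
  rcases hx' with k | k
  · have e : (fun y => cut s y * V y) =ᶠ[𝓝 x] fun _ => 0 := by
      filter_upwards [(isOpen_lt continuous_norm continuous_const).mem_nhds k] with y hy
      rw [cut_zero hs (le_of_lt hy), zero_mul]
    have z : ∀ i : Fin 3, pd i (fun _ : E3 => (0 : ℂ)) = fun _ => 0 :=
      fun i => funext fun _ => pd_const 0
    rw [Er, er_congr e, op_diag]
    simp only [z, mul_zero, Finset.sum_const_zero]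
  · have e : (fun y => cut s y * V y) =ᶠ[𝓝 x] V := by
      filter_upwards [(isOpen_lt continuous_const continuous_norm).mem_nhds k] with y hy
      rw [cut_one hs (le_of_lt hy), one_mul]
    rw [Er, er_congr e, pde x hx]

lemma er_cont (cV : ContDiffOn ℝ ∞ V Dax) : ContinuousOn (Er d V s) Dax := by
  have c : ContDiffOn ℝ ∞ (fun x => cut s x * V x) Dax := (cd_cut s).contDiffOn.mul cV
  have c' : ContinuousOn (fun x => ∑ i, d i * pd i (pd i fun x => cut s x * V x) x) Dax :=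
    continuousOn_finsetSum _ fun i _ => continuousOn_const.mul
      (contDiffOn_pd isOpen_Dax (contDiffOn_pd isOpen_Dax c)).continuousOn
  exact c'.congr fun x _ => op_diag x

lemma er_scale (hom : ∀ t, 0 < t → ∀ x ∈ Dax, V (t • x) = pw ν t * V x) (hs : 0 < s) {x : E3}
    (hx : x ∈ Dax) : Er d V s x = pw ν s * (s⁻¹ : ℝ) * (s⁻¹ : ℝ) * Er d V 1 (s⁻¹ • x) := by
  have e : (fun y => cut s y * V y) =ᶠ[𝓝 x]
      fun y => pw ν s * (fun z => cut 1 z * V z) (s⁻¹ • y) := by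
    filter_upwards [isOpen_Dax.mem_nhds hx] with y hy
    have a := hom s hs _ (smul_mem_Dax (inv_pos.2 hs) hy)
    rw [smul_inv_smul₀ hs.ne'] at a
    have b : cut 1 (s⁻¹ • y) = cut s y := by
      rw [cut, cut, norm_smul, Real.norm_of_nonneg (inv_pos.2 hs).le]
      congr 1
      field_simp
    simp only [b]
    rw [a]
    ring
  rw [Er, Er, er_congr e, op_diag, op_diag, Finset.mul_sum]
  refine Finset.sum_congr rfl fun i _ => ?_
  rw [er_pd _ _ fun z => cut 1 z * V z, er_pd]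
  ring

/-- Scaling bound for the error term. -/
lemma er_bd (h1 : -1 < h) (cV : ContDiffOn ℝ ∞ V Dax)
    (hom : ∀ t, 0 < t → ∀ x ∈ Dax, V (t • x) = pw ν t * V x)
    (pde : ∀ x ∈ Dax, op (diagM d) V x = 0) :
    ∃ C, 0 ≤ C ∧ ∀ s, 0 < s → ∀ x ∈ Oh h, ‖Er d V s x‖ ≤ C * s ^ ν.re / s ^ 2 := by
  have cK : IsCompact {y : E3 | 1 ≤ ‖y‖ ∧ ‖y‖ ≤ 2 * 1 ∧ h * ‖y‖ ≤ y 2} := by
    refine (isCompact_closedBall (0 : E3) (2 * 1)).of_isClosed_subset ?_
      fun y hy => mem_closedBall_zero_iff.2 hy.2.1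
    refine IsClosed.and ?_ (IsClosed.and ?_ ?_) <;> exact isClosed_le (by fun_prop) (by fun_prop)
  obtain ⟨C, hC⟩ := cK.exists_bound_of_continuousOn ((er_cont (d := d) (s := 1) cV).mono
    fun y hy => mem_Dax h1 (norm_pos_iff.1 (one_pos.trans_le hy.1)) hy.2.2)
  refine ⟨|C|, abs_nonneg C, fun s hs x hx => ?_⟩
  have xD := Oh_Dax h1 hx
  have si := inv_pos.2 hs
  have b : ‖Er d V 1 (s⁻¹ • x)‖ ≤ |C| := by
    by_cases k : ‖s⁻¹ • x‖ < 1 ∨ 2 * 1 < ‖s⁻¹ • x‖
    · rw [er_zero pde one_pos (smul_mem_Dax si xD) k, norm_zero]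
      exact abs_nonneg C
    · rw [not_or, not_lt, not_lt] at k
      refine (hC _ ⟨k.1, k.2, ?_⟩).trans (le_abs_self C)
      rw [norm_smul, Real.norm_of_nonneg si.le, PiLp.smul_apply, smul_eq_mul, mul_left_comm]
      exact mul_le_mul_of_nonneg_left hx.2.le si.le
  rw [er_scale hom hs xD, norm_mul, norm_mul, norm_mul, norm_pw hs, Complex.norm_real,
    Real.norm_of_nonneg si.le]
  refine (mul_le_mul_of_nonneg_left b (by positivity)).trans (le_of_eq ?_)
  field_simp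

lemma er_mem {C : ℝ} (h1 : -1 < h) (cV : ContDiffOn ℝ ∞ V Dax)
    (hC : ∀ x ∈ Oh h, ‖Er d V s x‖ ≤ C) : MemLp (Er d V s) 2 (volume.restrict (Oh h)) :=
  MemLp.of_bound (((er_cont cV).mono (Oh_Dax h1)).aestronglyMeasurable isOpen_Oh.measurableSet) C
    ((ae_restrict_mem isOpen_Oh.measurableSet).mono hC)

/-- The error term tested against a function of growth `|x| ^ (-σ)` tends to zero. -/
lemma er_lim {u : E3 → ℂ} {C r M : ℝ} (h1 : -1 < h) (s0 : 0 ≤ σ) (hν : σ - 1 < ν.re)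
    (pde : ∀ x ∈ Dax, op (diagM d) V x = 0) (C0 : 0 ≤ C)
    (hC : ∀ s, 0 < s → ∀ x ∈ Oh h, ‖Er d V s x‖ ≤ C * s ^ ν.re / s ^ 2) (hr : 0 < r)
    (hu : ∀ x ∈ Oh h, ‖x‖ < r → ‖x‖ ^ σ * ‖u x‖ ≤ M) :
    Tendsto (fun s => ∫ x in Oh h, u x * Er d V s x) (𝓝[>] 0) (𝓝 0) := by
  set v := volume.real (ball (0 : E3) 1)
  have t1 : Tendsto (fun s : ℝ => |M| * C * 2 ^ 3 * v * s ^ (ν.re + 1 - σ)) (𝓝[>] 0) (𝓝 0) := by
    have := ((Real.continuousAt_rpow_const 0 (ν.re + 1 - σ)
      (Or.inr (by linarith))).tendsto.mono_left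
      (nhdsWithin_le_nhds (s := Ioi 0))).const_mul (|M| * C * 2 ^ 3 * v)
    rwa [Real.zero_rpow (by linarith), mul_zero] at this
  refine squeeze_zero_norm' ?_ t1
  filter_upwards [Ioo_mem_nhdsGT (half_pos hr)] with s hs
  have p := hs.1
  have sr : 2 * s < r := by linarith [hs.2]
  have q := Real.rpow_pos_of_pos p σ
  rw [setIntegral_eq_of_subset_of_forall_sdiff_eq_zero isOpen_Oh.measurableSet
    (inter_subset_left (t := closedBall 0 (2 * s))) fun x hx => ?_]
  · refine (norm_setIntegral_le_of_norm_le_const (C := |M| / s ^ σ * (C * s ^ ν.re / s ^ 2))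
      ((measure_mono inter_subset_right).trans_lt measure_closedBall_lt_top) fun x hx => ?_).trans ?_
    · rcases lt_or_ge ‖x‖ s with k | k
      · rw [er_zero pde p (Oh_Dax h1 hx.1) (Or.inl k), mul_zero, norm_zero]
        positivity
      · rw [norm_mul]
        refine mul_le_mul ((le_div_iff₀' q).2 ?_) (hC s p x hx.1) (norm_nonneg _) (by positivity)
        exact (mul_le_mul_of_nonneg_right (Real.rpow_le_rpow p.le k s0) (norm_nonneg _)).trans
          ((hu x hx.1 ((mem_closedBall_zero_iff.1 hx.2).trans_lt sr)).trans (le_abs_self _))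
    · refine (mul_le_mul_of_nonneg_left (measureReal_mono inter_subset_right
        measure_closedBall_lt_top.ne) (by positivity)).trans (le_of_eq ?_)
      rw [vol_ball _ (by positivity), Real.rpow_sub p, Real.rpow_add_one p.ne']
      field_simp
      rfl
  · rw [er_zero pde p (Oh_Dax h1 hx.1)
      (Or.inr (not_le.1 fun k => hx.2 ⟨hx.1, mem_closedBall_zero_iff.2 k⟩)), mul_zero]

end Pool.Agent.Lib.MP_322279_an.All
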