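import Pool.Agent.Lib.MP_322279_an.All.Defs

/-!
Hardy's inequality at a point in three dimensions and solvability of the weak problem.
-/

namespace Pool.Agent.Lib.MP_322279_an.All

open MeasureTheory Set Filter Topology Metric ComplexConjugate
open scoped ContDiff

variable {Ω : Set E3} {φ u f : E3 → ℂ} {g : Fin 3 → E3 → ℂ} {d : Fin 3 → ℂ}

/-- Hardy's inequality near the origin for test functions. -/
lemma test_hardy3 (h : IsTest Ω φ) (hΩ : IsOpen Ω) {t : ℝ} (ht : 0 < t) :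
    ∫ x in Ω ∩ ball 0 t, ‖φ x‖ ^ 2 ≤ 8 * t ^ 2 * ∑ i, ∫ x in Ω, ‖pd i φ x‖ ^ 2 := by
  set m : E3 → ℝ := fun x => (‖x‖ ^ 2 + t ^ 2)⁻¹ with hm
  have mp : ∀ x, 0 < m x := fun x => by simp only [hm]; positivity
  have mr : ContDiff ℝ ∞ m := ((contDiff_norm_sq ℝ).add contDiff_const).inv fun x => by positivity
  have mc : ContDiff ℝ ∞ fun x => (m x : ℂ) := Complex.ofRealCLM.contDiff.comp mr
  have xc : ∀ i, ContDiff ℝ ∞ fun x : E3 => (x i : ℂ) := fun i =>
    Complex.ofRealCLM.contDiff.comp (cd_coord i)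
  have md : ∀ i x, pd i (fun y : E3 => (y i : ℂ) * (m y : ℂ)) x
      = ((m x - 2 * x i ^ 2 * m x ^ 2 : ℝ) : ℂ) := by
    intro i x
    have h1 : HasDerivAt (fun s : ℝ => (((s + t ^ 2)⁻¹ : ℝ) : ℂ))
        ((-1 / (‖x‖ ^ 2 + t ^ 2) ^ 2 : ℝ) : ℂ) (‖x‖ ^ 2) :=
      (((hasDerivAt_id' (‖x‖ ^ 2)).add_const (t ^ 2)).inv (by positivity)).ofReal_comp
    have h2 := pd_comp_real (i := i) (b := fun y : E3 => ‖y‖ ^ 2)
      ((contDiff_norm_sq ℝ (n := 1)).differentiable (by simp) x) h1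
    rw [pd_mul ((xc i).differentiable (by simp) x) (mc.differentiable (by simp) x),
      pd_coord (hd_id (x i)), if_pos rfl]
    simp only [hm]
    rw [h2, fderiv_norm_sq_apply]
    simp only [smul_apply, innerSL_apply_apply,
      EuclideanSpace.inner_single_right, conj_trivial, one_mul, nsmul_eq_mul]
    push_cast
    rw [neg_div, one_div, inv_pow]
    ring
  have tq : IsTest Ω fun x => φ x * conj (φ x) := h.mul isOpen_univ (subset_univ _) h.cj.1.contDiffOn
  have tF : ∀ i, IsTest Ω fun x => φ x * conj (φ x) * ((x i : ℂ) * (m x : ℂ)) := fun i =>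
    tq.mul isOpen_univ (subset_univ _) ((xc i).mul mc).contDiffOn
  have cs : ∀ {χ : E3 → ℂ}, IsTest Ω χ → HasCompactSupport (fun x => ‖χ x‖ ^ 2) := fun hχ =>
    hχ.2.1.comp_left (g := fun z : ℂ => ‖z‖ ^ 2) (by simp)
  have cc : ∀ {χ : E3 → ℂ}, IsTest Ω χ → Continuous (fun x => ‖χ x‖ ^ 2) := fun hχ =>
    hχ.1.continuous.norm.pow 2
  have iq : ∀ {χ : E3 → ℂ}, IsTest Ω χ → Integrable (fun x => ‖χ x‖ ^ 2) := fun hχ =>
    (cc hχ).integrable_of_hasCompactSupport (cs hχ)
  have iq' : Integrable (fun x => ‖φ x‖ ^ 2 * m x) :=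
    ((cc h).mul mr.continuous).integrable_of_hasCompactSupport (cs h).mul_right
  have iF : ∀ i, IntegrableOn (fun x =>
      (pd i (fun x => φ x * conj (φ x) * ((x i : ℂ) * (m x : ℂ))) x).re) Ω := fun i =>
    ((tF i).dpd i).integrable.re.integrableOn
  have e0 : ∫ x in Ω, ∑ i,
      (pd i (fun x => φ x * conj (φ x) * ((x i : ℂ) * (m x : ℂ))) x).re = 0 := by
    rw [integral_finsetSum _ fun i _ => iF i]
    refine Finset.sum_eq_zero fun i _ => ?_
    have := integral_re (𝕜 := ℂ) (((tF i).dpd i).integrable.integrableOn (s := Ω))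
    rw [(tF i).integral_pd i] at this
    exact this
  have pw : ∀ x, ‖φ x‖ ^ 2 * m x / 2 - 2 * ∑ i, ‖pd i φ x‖ ^ 2 ≤ ∑ i,
      (pd i (fun x => φ x * conj (φ x) * ((x i : ℂ) * (m x : ℂ))) x).re := by
    intro x
    have a : ∀ i, ‖φ x‖ ^ 2 * (m x - 5 / 2 * x i ^ 2 * m x ^ 2) - 2 * ‖pd i φ x‖ ^ 2 ≤
        (pd i (fun x => φ x * conj (φ x) * ((x i : ℂ) * (m x : ℂ))) x).re := by
      intro i
      rw [pd_mul (tq.diff x) (((xc i).mul mc).differentiable (by simp) x), md,
        pd_mul (h.diff x) (h.cj.diff x), pd_conj (h.diff x), ← Complex.ofReal_mul,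
        Complex.add_re, Complex.re_mul_ofReal, Complex.re_mul_ofReal, Complex.sq_norm,
        Complex.sq_norm, Complex.normSq_apply, Complex.normSq_apply]
      simp only [Complex.add_re, Complex.mul_re, Complex.conj_re, Complex.conj_im]
      nlinarith [sq_nonneg (x i * m x * (φ x).re + 2 * (pd i φ x).re),
        sq_nonneg (x i * m x * (φ x).im + 2 * (pd i φ x).im)]
    have b : ‖x‖ ^ 2 * m x ≤ 1 := by
      simp only [hm]
      rw [mul_inv_le_iff₀ (by positivity)]
      nlinarith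
    have c := mul_le_mul_of_nonneg_left b (mul_nonneg (sq_nonneg ‖φ x‖) (mp x).le)
    rw [norm_sq3 x] at c
    simp only [Fin.sum_univ_three]
    nlinarith [a 0, a 1, a 2]
  have i2 : IntegrableOn (fun x => ∑ i, ‖pd i φ x‖ ^ 2) Ω :=
    (integrable_finsetSum _ fun i _ => iq (h.dpd i)).integrableOn
  have e1 := (integral_mono ((iq'.div_const 2).integrableOn.sub (i2.const_mul 2))
    (integrable_finsetSum _ fun i _ => iF i) pw).trans_eq e0
  simp only [Pi.sub_apply] at e1
  rw [integral_sub (iq'.div_const 2).integrableOn (i2.const_mul 2), integral_div,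
    integral_const_mul, integral_finsetSum _ fun i _ => (iq (h.dpd i)).integrableOn] at e1
  have e2 : ∫ x in Ω ∩ ball 0 t, ‖φ x‖ ^ 2 ≤ ∫ x in Ω, 2 * t ^ 2 * (‖φ x‖ ^ 2 * m x) := by
    refine le_trans (setIntegral_mono_on (iq h).integrableOn (iq'.const_mul _).integrableOn
      (hΩ.inter isOpen_ball).measurableSet fun x hx => ?_) (setIntegral_mono_set
      (iq'.const_mul _).integrableOn (Eventually.of_forall fun x => ?_)
      inter_subset_left.eventuallyLE)
    · have a : ‖x‖ ^ 2 ≤ t ^ 2 :=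
        pow_le_pow_left₀ (norm_nonneg _) (mem_ball_zero_iff.1 hx.2).le 2
      have b : 1 ≤ 2 * t ^ 2 * m x := by
        simp only [hm]
        rw [le_mul_inv_iff₀ (by positivity)]
        linarith
      nlinarith [sq_nonneg ‖φ x‖]
    · have := mp x
      positivity
  rw [integral_const_mul] at e2
  nlinarith [sq_nonneg t]

lemma hg_hardy3 (h : HG Ω u g) (hΩ : IsOpen Ω) {t : ℝ} (ht : 0 < t) :
    ∫ x in Ω ∩ ball 0 t, ‖u x‖ ^ 2 ≤ 8 * t ^ 2 * ∑ i, ∫ x in Ω, ‖g i x‖ ^ 2 := by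
  obtain ⟨hu, hg, φ, s, c0, c1⟩ := h
  have le : volume.restrict (Ω ∩ ball (0 : E3) t) ≤ volume.restrict Ω :=
    Measure.restrict_mono inter_subset_left le_rfl
  have l1 := tendsto_sq (fun k => (s k).memLp _) (hu.mono_measure le)
    (tendsto_of_tendsto_of_tendsto_of_le_of_le tendsto_const_nhds c0 (fun _ => zero_le)
      fun k => eLpNorm_mono_measure _ le)
  have l2 := (tendsto_finsetSum Finset.univ fun i _ =>
    tendsto_sq (fun k => ((s k).dpd i).memLp _) (hg i) (c1 i)).const_mul (8 * t ^ 2)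
  exact le_of_tendsto_of_tendsto' l1 l2 fun k => test_hardy3 (s k) hΩ ht

/-- The little-o form of Hardy's inequality at a point outside the domain. -/
lemma hg_hardy_small (h : HG Ω u g) (hΩ : IsOpen Ω) (h0 : (0 : E3) ∉ Ω) {ε : ℝ} (hε : 0 < ε) :
    ∀ᶠ t in 𝓝[>] (0 : ℝ), ∫ x in Ω ∩ ball 0 t, ‖u x‖ ^ 2 ≤ ε * t ^ 2 := by
  obtain ⟨hu, hg, φ, s, c0, c1⟩ := h
  have l : Tendsto (fun k => ∑ i, ∫ x in Ω, ‖(pd i (φ k) - g i) x‖ ^ 2) atTop (𝓝 0) := by
    have := tendsto_finsetSum Finset.univ fun i _ =>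
      tendsto_sq (φ := fun k => pd i (φ k) - g i) (u := 0)
        (fun k => (((s k).dpd i).memLp _).sub (hg i)) MemLp.zero (by simpa using c1 i)
    simpa using this
  obtain ⟨k, hk⟩ := (l.eventually (gt_mem_nhds (show 0 < ε / 8 by positivity))).exists
  have neg : ∀ j, IsTest Ω fun x => φ k x + φ j x * (-1) := fun j =>
    (s k).add ((s j).mul isOpen_univ (subset_univ _) contDiffOn_const)
  have hH : HG Ω (φ k - u) fun i => pd i (φ k) - g i := by
    refine ⟨((s k).memLp _).sub hu, fun i => (((s k).dpd i).memLp _).sub (hg i), _, neg,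
      c0.congr fun j => ?_, fun i => (c1 i).congr fun j => ?_⟩
    · rw [eLpNorm_sub_comm]
      congr 1
      funext x
      simp only [Pi.sub_apply]
      ring
    · rw [eLpNorm_sub_comm]
      congr 1
      funext x
      simp only [Pi.sub_apply]
      rw [pd_add ((s k).diff x) (((s j).diff x).mul_const _),
        pd_mul ((s j).diff x) (differentiableAt_const _), pd_const]
      ring
  obtain ⟨r, hr, hb⟩ := Metric.eventually_nhds_iff_ball.1
    (notMem_tsupport_iff_eventuallyEq.1 fun h' => h0 ((s k).2.2 h'))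
  filter_upwards [Ioo_mem_nhdsGT hr] with t ht
  have h1 := hg_hardy3 hH hΩ ht.1
  rw [setIntegral_congr_fun (g := fun x => ‖u x‖ ^ 2) (hΩ.inter isOpen_ball).measurableSet
    fun x hx => by simp [hb x (ball_subset_ball ht.2.le hx.2)]] at h1
  nlinarith [sq_nonneg t]

/-- Solvability of the weak problem in a bounded open set. -/
theorem exists_weakR {R : ℝ} (hΩ : IsOpen Ω) (R0 : 0 < R) (hz : Ω ⊆ ball 0 R) {c : ℝ} (hc : 0 < c)
    (hd : ∀ i, c ≤ (d i).re) (hf : MemLp f 2 (volume.restrict Ω)) :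
    ∃ u g, HG Ω u g ∧
      ∀ φ, IsTest Ω φ → ∑ i, d i * ∫ x in Ω, g i x * pd i φ x = -∫ x in Ω, f x * φ x := by
  set H := (jets Ω).topologicalClosure with hH
  haveI : CompleteSpace H := (jets Ω).isClosed_topologicalClosure.completeSpace_coe
  set e : Option (Fin 3) → ℂ := fun o => o.elim 0 d with he
  set D : Amb Ω →L[ℂ] Amb Ω := (PiLp.continuousLinearEquiv 2 ℂ _).symm.toContinuousLinearMap ∘L
    ContinuousLinearMap.pi fun o => e o • PiLp.proj 2 _ o with hD
  have D1 : ∀ U V : Amb Ω, inner ℂ V (D U) = ∑ i, d i * inner ℂ (V (some i)) (U (some i)) := by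
    intro U V
    rw [PiLp.inner_apply, Fintype.sum_option]
    have : ∀ o, D U o = e o • U o := fun o => rfl
    simp only [this, inner_smul_right, he, Option.elim, zero_mul, zero_add]
  set S : H →L[ℂ] H := H.orthogonalProjectionOnto ∘L D ∘L H.subtypeL with hS
  have S1 : ∀ U V : H, inner ℂ V (S U) = inner ℂ (V : Amb Ω) (D U) := fun U V =>
    H.inner_orthogonalProjectionOnto_eq_of_mem_left V _
  have unit : IsUnit S := by
    refine S.isUnit_of_forall_le_norm_inner_map (c := ⟨c / (1 + 8 * R ^ 2), by positivity⟩)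
      (show (0 : ℝ) < c / (1 + 8 * R ^ 2) by positivity) fun U => ?_
    rw [norm_inner_symm, S1, D1]
    refine le_trans ?_ (Complex.re_le_norm _)
    have h1 := hg_hardy3 (hg_of_mem U.2) hΩ R0
    rw [inter_eq_left.2 hz] at h1
    simp only [← norm_sq_Lp] at h1
    have h2 : ‖U‖ ^ 2 = ‖(U : Amb Ω) none‖ ^ 2 + ∑ i, ‖(U : Amb Ω) (some i)‖ ^ 2 := by
      rw [← Fintype.sum_option (fun o => ‖(U : Amb Ω) o‖ ^ 2), ← PiLp.norm_sq_eq_of_L2]; rfl
    have h3 : c * ∑ i, ‖(U : Amb Ω) (some i)‖ ^ 2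
        ≤ (∑ i, d i * inner ℂ ((U : Amb Ω) (some i)) ((U : Amb Ω) (some i))).re := by
      rw [Complex.re_sum, Finset.mul_sum]
      refine Finset.sum_le_sum fun i _ => ?_
      rw [inner_self_eq_norm_sq_to_K]
      have : ((‖(U : Amb Ω) (some i)‖ : ℂ) ^ 2) = ((‖(U : Amb Ω) (some i)‖ ^ 2 : ℝ) : ℂ) := by
        push_cast; rfl
      refine le_trans (mul_le_mul_of_nonneg_right (hd i) (sq_nonneg _)) (le_of_eq ?_)
      rw [← Complex.re_mul_ofReal, ← this]; rfl
    refine le_trans ?_ h3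
    rw [h2]
    change _ * (c / (1 + 8 * R ^ 2)) ≤ _
    rw [← mul_div_assoc, div_le_iff₀ (by positivity)]
    nlinarith
  obtain ⟨U, hU⟩ := (ContinuousLinearMap.isUnit_iff_bijective.1 unit).2
    (H.orthogonalProjectionOnto (PiLp.single 2 none (-hf.toLp f)))
  refine ⟨_, _, hg_of_mem U.2, fun φ t => ?_⟩
  set V : Amb Ω := WithLp.toLp 2 fun o => match o with
    | none => (t.cj.memLp _).toLp _
    | some i => ((t.cj.dpd i).memLp _).toLp _ with hV
  have V0 : V none =ᵐ[volume.restrict Ω] fun x => conj (φ x) := (t.cj.memLp _).coeFn_toLp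
  have V1 : ∀ i, V (some i) =ᵐ[volume.restrict Ω] pd i fun x => conj (φ x) := fun i =>
    ((t.cj.dpd i).memLp _).coeFn_toLp
  have m : V ∈ H := (jets Ω).le_topologicalClosure ⟨_, t.cj, V0, V1⟩
  have k := S1 U ⟨V, m⟩
  rw [hU, H.inner_orthogonalProjectionOnto_eq_of_mem_left, D1, PiLp.inner_apply,
    Fintype.sum_option] at k
  simp only [PiLp.single_apply, if_true, reduceCtorEq, if_false, inner_zero_right,
    Finset.sum_const_zero, add_zero, inner_neg_right, L2.inner_def] at k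
  have k1 : ∫ x in Ω, inner ℂ (V none x) (hf.toLp f x) = ∫ x in Ω, f x * φ x := by
    refine integral_congr_ae ?_
    filter_upwards [V0, hf.coeFn_toLp] with x h1 h2
    simp [h1, h2]
  rw [← k1, k]
  refine Finset.sum_congr rfl fun i _ => ?_
  congr 1
  refine integral_congr_ae ?_
  filter_upwards [V1 i] with x h1
  simp [h1, pd_conj (t.diff x)]

end Pool.Agent.Lib.MP_322279_an.All
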