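import Pool.Agent.Lib.MP_322279_an.All.Pde

/-!
Homogeneity, boundary values and the choice of the coefficient.
-/

namespace Pool.Agent.Lib.MP_322279_an.All

open MeasureTheory Set Filter Topology Metric
open scoped ContDiff

variable {a κ ν : ℂ} {G : ℂ → ℂ} {h : ℝ}

lemma hom_Vf (ha : a.im ≠ 0) : ∀ t, 0 < t → ∀ x ∈ Dax,
    Vf a (ν / 2) G (t • x) = pw ν t * Vf a (ν / 2) G x := by
  intro t ht x hx
  have hq := Complex.slitPlane_ne_zero (q_slit ha (ρ := x 0 ^ 2 + x 1 ^ 2) (z := x 2) hx)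
  set q : ℂ := a * ((x 0 ^ 2 + x 1 ^ 2 : ℝ) : ℂ) + ((x 2 ^ 2 : ℝ) : ℂ) with hqd
  have e : a * ((((t • x) 0) ^ 2 + ((t • x) 1) ^ 2 : ℝ) : ℂ) + ((((t • x) 2) ^ 2 : ℝ) : ℂ)
      = ((t ^ 2 : ℝ) : ℂ) * q := by
    simp only [PiLp.smul_apply, smul_eq_mul, hqd]
    push_cast
    ring
  have l : Complex.log (((t ^ 2 : ℝ) : ℂ) * q) = 2 * (Real.log t : ℂ) + Complex.log q := by
    rw [Complex.log_ofReal_mul (by positivity) hq, Real.log_pow]
    push_cast
    ring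
  have et : Complex.exp (Real.log t : ℂ) = t := by
    rw [← Complex.ofReal_exp, Real.exp_log ht]
  have e2 : (((t • x) 2 : ℝ) : ℂ) * Complex.exp (-(2 * (Real.log t : ℂ) + Complex.log q) / 2)
      = (x 2 : ℂ) * Complex.exp (-Complex.log q / 2) := by
    have : Complex.exp (-Complex.log q / 2) = Complex.exp (Real.log t : ℂ)
        * Complex.exp (-(2 * (Real.log t : ℂ) + Complex.log q) / 2) := by
      rw [← Complex.exp_add]
      congr 1
      ring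
    rw [this, et]
    simp only [PiLp.smul_apply, smul_eq_mul]
    push_cast
    ring
  unfold Vf Psi pw
  rw [e, l, e2, ← hqd, ← mul_assoc, ← Complex.exp_add]
  congr 2
  ring

lemma axis_Vf : Vf a κ G (EuclideanSpace.single 2 1) = G 1 := by
  simp [Vf, Psi]

/-- The principal branch of the square root of a square in the right half-plane. -/
lemma exp_neg_log_sq {ζ : ℂ} (hζ : 0 < ζ.re) :
    Complex.exp (-Complex.log (ζ ^ 2) / 2) = ζ⁻¹ := by
  have z0 : ζ ≠ 0 := fun k => by simp [k] at hζ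
  have b := abs_lt.1 (Complex.abs_arg_lt_pi_div_two_iff.2 (Or.inl hζ))
  have e : ζ ^ 2 = Complex.exp (2 * Complex.log ζ) := by
    rw [two_mul, Complex.exp_add, Complex.exp_log z0, sq]
  have i : (2 * Complex.log ζ).im = 2 * ζ.arg := by simp [Complex.log_im]
  rw [e, Complex.log_exp (by rw [i]; linarith [b.1]) (by rw [i]; linarith [b.2])]
  have : -(2 * Complex.log ζ) / 2 = -Complex.log ζ := by ring
  rw [this, Complex.exp_neg, Complex.exp_log z0]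

/-- Every non-real point on a diagonal ray in the half-plane given by the sign of `h` is the
value of the angular variable on the cone for a suitable coefficient. -/
lemma exists_coef (h1 : -1 < h) (h2 : h < 1) (h0 : h ≠ 0) {R : ℝ} (hR : 0 < R) :
    ∃ a : ℂ, a.im ≠ 0 ∧ (h : ℂ) * Complex.exp (-Complex.log (a * ((1 - h ^ 2 : ℝ) : ℂ)
      + ((h ^ 2 : ℝ) : ℂ)) / 2) = R * (h + Complex.I) := by
  have p : 0 < 1 - h ^ 2 := by nlinarith
  have d : 0 < R * (h ^ 2 + 1) := by positivity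
  set c : ℝ := h / (R * (h ^ 2 + 1)) with hc
  have c0 : c ≠ 0 := div_ne_zero h0 d.ne'
  have ch : 0 < c * h := by
    have : c * h = h ^ 2 / (R * (h ^ 2 + 1)) := by rw [hc]; ring
    rw [this]
    positivity
  set ζ : ℂ := (c : ℂ) * ((h : ℂ) - Complex.I) with hζ
  have zr : ζ.re = c * h := by simp [hζ]
  have zi : ζ.im = -c := by simp [hζ]
  have z0 : ζ ≠ 0 := fun k => by
    rw [k] at zr
    exact ch.ne (by simpa using zr)
  refine ⟨(((1 - h ^ 2)⁻¹ : ℝ) : ℂ) * (ζ ^ 2 - ((h ^ 2 : ℝ) : ℂ)), ?_, ?_⟩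
  · rw [Complex.im_ofReal_mul, Complex.sub_im, Complex.ofReal_im, sq ζ, Complex.mul_im, zr, zi]
    refine mul_ne_zero (inv_ne_zero p.ne') ?_
    have : c * h * -c + -c * (c * h) - 0 = -2 * (c * h) * c := by ring
    rw [this]
    exact mul_ne_zero (mul_ne_zero (by norm_num) ch.ne') c0
  · have e : (((1 - h ^ 2)⁻¹ : ℝ) : ℂ) * (ζ ^ 2 - ((h ^ 2 : ℝ) : ℂ)) * ((1 - h ^ 2 : ℝ) : ℂ)
        + ((h ^ 2 : ℝ) : ℂ) = ζ ^ 2 := by
      rw [mul_right_comm, ← Complex.ofReal_mul, inv_mul_cancel₀ p.ne']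
      simp
    rw [e, exp_neg_log_sq (zr ▸ ch), mul_inv_eq_iff_eq_mul₀ z0]
    have k : c * (R * (h ^ 2 + 1)) = h := div_mul_cancel₀ h d.ne'
    have k' : (c : ℂ) * (R * ((h : ℂ) ^ 2 + 1)) = h := by exact_mod_cast k
    rw [hζ]
    linear_combination -k' + (R : ℂ) * c * Complex.I_sq

/-- Linear vanishing at the lateral boundary. -/
lemma lip_Vf (h1 : -1 < h) (ha : a.im ≠ 0) (hG : DifferentiableOn ℂ G Ucut)
    (z : G ((h : ℂ) * Complex.exp (-Complex.log (a * ((1 - h ^ 2 : ℝ) : ℂ)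
      + ((h ^ 2 : ℝ) : ℂ)) / 2)) = 0) :
    ∃ L : ℝ, ∀ x : E3, ‖x‖ = 1 → h ≤ x 2 → ‖Vf a κ G x‖ ≤ L * (x 2 - h) := by
  set g : ℝ → ℂ := fun c => Psi κ G (a * ((1 - c ^ 2 : ℝ) : ℂ) + ((c ^ 2 : ℝ) : ℂ)) c with hg
  have cd : ContDiffOn ℝ 1 g (Icc h 1) := by
    intro c hc
    have hz : (1 - c ^ 2 : ℝ) ≠ 0 ∨ 0 < c := by
      by_cases k : 0 < c
      · exact Or.inr k
      · left
        have : -1 < c := h1.trans_le hc.1
        nlinarith
    have o : ContDiff ℝ 1 (fun c : ℝ => (c : ℂ)) := Complex.ofRealCLM.contDiff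
    have q : ContDiff ℝ 1 (fun c : ℝ => a * ((1 - c ^ 2 : ℝ) : ℂ) + ((c ^ 2 : ℝ) : ℂ)) :=
      (contDiff_const.mul (o.comp (by fun_prop))).add (o.comp (by fun_prop))
    have l : ContDiffAt ℝ 1
        (fun c : ℝ => Complex.log (a * ((1 - c ^ 2 : ℝ) : ℂ) + ((c ^ 2 : ℝ) : ℂ))) c := by
      have l0 : ContDiffAt ℝ 1 Complex.log (a * ((1 - c ^ 2 : ℝ) : ℂ) + ((c ^ 2 : ℝ) : ℂ)) :=
        (Complex.contDiffAt_log (q_slit ha hz)).restrict_scalars ℝ
      exact ContDiffAt.comp (g := Complex.log)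
        (f := fun c : ℝ => a * ((1 - c ^ 2 : ℝ) : ℂ) + ((c ^ 2 : ℝ) : ℂ)) c l0 q.contDiffAt
    have xi : ContDiffAt ℝ 1 (fun c : ℝ => (c : ℂ) * Complex.exp
        (-Complex.log (a * ((1 - c ^ 2 : ℝ) : ℂ) + ((c ^ 2 : ℝ) : ℂ)) / 2)) c :=
      o.contDiffAt.mul (l.neg.div_const 2).cexp
    have cG : ContDiffAt ℝ 1 G ((c : ℂ) * Complex.exp
        (-Complex.log (a * ((1 - c ^ 2 : ℝ) : ℂ) + ((c ^ 2 : ℝ) : ℂ)) / 2)) :=
      ((hG.contDiffOn isOpen_Ucut).contDiffAt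
        (isOpen_Ucut.mem_nhds (xi_cut ha hz))).restrict_scalars ℝ
    exact ((contDiffAt_const.mul l).cexp.mul (cG.comp c xi)).contDiffWithinAt
  obtain ⟨K, hK⟩ := cd.exists_lipschitzOnWith one_ne_zero (convex_Icc h 1) isCompact_Icc
  refine ⟨K, fun x hx hh => ?_⟩
  have n := norm_sq3 x
  rw [hx] at n
  have x1 : x 2 ≤ 1 := by nlinarith [sq_nonneg (x 0), sq_nonneg (x 1), sq_nonneg (x 2 - 1)]
  have e : Vf a κ G x = g (x 2) := by
    have : x 0 ^ 2 + x 1 ^ 2 = 1 - x 2 ^ 2 := by linarith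
    simp only [Vf, hg, this]
  have g0 : g h = 0 := by
    simp only [hg, Psi, z, mul_zero]
  have b := hK.dist_le_mul (x 2) ⟨hh, x1⟩ h ⟨le_rfl, hh.trans x1⟩
  rw [g0, dist_zero_right, Real.dist_eq, abs_of_nonneg (sub_nonneg.2 hh)] at b
  rw [e]
  exact b

end Pool.Agent.Lib.MP_322279_an.All
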