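import Pool.Agent.Lib.MP_322279_an.All.Defs

/-!
Mehler's integral solves Legendre's equation in the cut plane.
-/

namespace Pool.Agent.Lib.MP_322279_an.All

open MeasureTheory Set Filter Topology Metric
open scoped ContDiff

variable {p : ℝ} {μ ξ : ℂ}

lemma exp_abs_le_cosh (y : ℝ) : Real.exp |y| ≤ 2 * Real.cosh y := by
  rw [← Real.cosh_abs, Real.cosh_eq]
  linarith [Real.exp_pos (-|y|)]

/-- A lower bound that is locally uniform in the cut plane. -/
lemma cut_lower (hξ : ξ ∈ Ucut) : ∃ ε c : ℝ, 0 < ε ∧ 0 < c ∧ ∀ ζ ∈ ball ξ ε, ∀ y : ℝ,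
    (Real.cosh y : ℂ) + ζ ∈ Complex.slitPlane ∧
      c * Real.exp |y| ≤ ‖(Real.cosh y : ℂ) + ζ‖ := by
  obtain ⟨e, he, h⟩ : ∃ e : ℝ, 0 < e ∧ ∀ ζ ∈ ball ξ e, ∀ t : ℝ, 1 ≤ t →
      (t : ℂ) + ζ ∈ Complex.slitPlane ∧ e ≤ ‖(t : ℂ) + ζ‖ := by
    rcases hξ with k | k
    · have k0 := abs_pos.2 k
      refine ⟨|ξ.im| / 2, by linarith, fun ζ hζ t _ => ?_⟩
      have a := (Complex.abs_im_le_norm (ζ - ξ)).trans_lt (mem_ball_iff_norm.1 hζ)
      have b := abs_sub_abs_le_abs_sub ξ.im ζ.im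
      rw [Complex.sub_im, abs_sub_comm] at a
      have c := Complex.abs_im_le_norm ((t : ℂ) + ζ)
      simp only [Complex.add_im, Complex.ofReal_im, zero_add] at c
      refine ⟨Or.inr ?_, by linarith⟩
      simp only [Complex.add_im, Complex.ofReal_im, zero_add]
      exact abs_pos.1 (by linarith)
    · refine ⟨(1 + ξ.re) / 2, by linarith, fun ζ hζ t ht => ?_⟩
      have a := (Complex.abs_re_le_norm (ζ - ξ)).trans_lt (mem_ball_iff_norm.1 hζ)
      rw [Complex.sub_re] at a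
      have b := (abs_lt.1 a).1
      have c := Complex.re_le_norm ((t : ℂ) + ζ)
      simp only [Complex.add_re, Complex.ofReal_re] at c
      refine ⟨Or.inl ?_, by linarith⟩
      simp only [Complex.add_re, Complex.ofReal_re]
      linarith
  have hn := norm_nonneg ξ
  refine ⟨e, e / (2 * e + ‖ξ‖) / 2, he, by positivity, fun ζ hζ y => ?_⟩
  obtain ⟨a, b⟩ := h ζ hζ _ (Real.one_le_cosh y)
  refine ⟨a, ?_⟩
  have c : Real.cosh y ≤ ‖(Real.cosh y : ℂ) + ζ‖ + ‖ζ‖ := by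
    have := norm_sub_le ((Real.cosh y : ℂ) + ζ) ζ
    rwa [add_sub_cancel_right, Complex.norm_real, Real.norm_of_nonneg (Real.cosh_pos y).le] at this
  have d : ‖ζ‖ ≤ e + ‖ξ‖ := by
    have := norm_add_le (ζ - ξ) ξ
    rw [sub_add_cancel] at this
    linarith [mem_ball_iff_norm.1 hζ]
  rw [div_div, div_mul_eq_mul_div, div_le_iff₀ (by positivity)]
  nlinarith [mul_le_mul_of_nonneg_left (exp_abs_le_cosh y) he.le,
    mul_le_mul_of_nonneg_left b (add_nonneg he.le hn)]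

lemma integrable_exp_abs {b : ℝ} (hb : 0 < b) : Integrable fun y : ℝ => Real.exp (-b * |y|) := by
  rw [← integrableOn_univ, ← Iic_union_Ioi (a := (0 : ℝ)), integrableOn_union]
  constructor
  · refine (integrableOn_exp_mul_Iic hb 0).congr_fun (fun y hy => ?_) measurableSet_Iic
    simp only [abs_of_nonpos (mem_Iic.1 hy), neg_mul_neg]
  · refine (integrableOn_exp_mul_Ioi (neg_lt_zero.2 hb) 0).congr_fun (fun y hy => ?_)
      measurableSet_Ioi
    simp only [abs_of_pos (mem_Ioi.1 hy)]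

lemma norm_ker_le (hp : 0 ≤ p) {c y : ℝ} {s : ℂ} (hc : 0 < c) (h : c * Real.exp |y| ≤ ‖s‖) :
    ‖Complex.exp (μ * y) * s ^ (-(p : ℂ))‖ ≤ c ^ (-p) * Real.exp (-(p - |μ.re|) * |y|) := by
  rw [norm_mul, ← Complex.ofReal_neg, Complex.norm_cpow_real, Complex.norm_exp]
  have a := Real.rpow_le_rpow_of_nonpos (by positivity) h (neg_nonpos.2 hp)
  rw [Real.mul_rpow hc.le (Real.exp_pos _).le, ← Real.exp_mul] at a
  have b : Real.exp (μ * y).re ≤ Real.exp (|μ.re| * |y|) := by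
    refine Real.exp_le_exp.2 ?_
    rw [← abs_mul, Complex.re_mul_ofReal]
    exact le_abs_self _
  refine (mul_le_mul b a (by positivity) (by positivity)).trans (le_of_eq ?_)
  rw [mul_left_comm, ← Real.exp_add]
  congr 2
  ring

lemma cont_ker (hξ : ξ ∈ Ucut) :
    Continuous fun y : ℝ => Complex.exp (μ * y) * ((Real.cosh y : ℂ) + ξ) ^ (-(p : ℂ)) := by
  obtain ⟨e, c, he, -, h⟩ := cut_lower hξ
  exact Continuous.mul (by fun_prop) (Continuous.cpow (by fun_prop) continuous_const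
    fun y => (h ξ (mem_ball_self he) y).1)

lemma integrable_leg (hp : |μ.re| < p) (hξ : ξ ∈ Ucut) :
    Integrable fun y : ℝ => Complex.exp (μ * y) * ((Real.cosh y : ℂ) + ξ) ^ (-(p : ℂ)) := by
  obtain ⟨e, c, he, hc, h⟩ := cut_lower hξ
  exact ((integrable_exp_abs (sub_pos.2 hp)).const_mul (c ^ (-p))).mono'
    (cont_ker hξ).aestronglyMeasurable (.of_forall fun y =>
      norm_ker_le ((abs_nonneg _).trans hp.le) hc (h ξ (mem_ball_self he) y).2)

lemma hasDerivAt_leg (hp : |μ.re| < p) (hξ : ξ ∈ Ucut) :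
    HasDerivAt (leg p μ) (-p * leg (p + 1) μ ξ) ξ := by
  obtain ⟨e, c, he, hc, h⟩ := cut_lower hξ
  have p0 : 0 ≤ p := (abs_nonneg _).trans hp.le
  have p1 : |μ.re| < p + 1 := by linarith
  have := (hasDerivAt_integral_of_dominated_loc_of_deriv_le (μ := (volume : Measure ℝ))
    (F := fun (ζ : ℂ) (y : ℝ) => Complex.exp (μ * y) * ((Real.cosh y : ℂ) + ζ) ^ (-(p : ℂ)))
    (F' := fun (ζ : ℂ) (y : ℝ) => -p * (Complex.exp (μ * y) *
      ((Real.cosh y : ℂ) + ζ) ^ (-((p + 1 : ℝ) : ℂ))))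
    (bound := fun y => p * (c ^ (-(p + 1)) * Real.exp (-(p + 1 - |μ.re|) * |y|)))
    (ball_mem_nhds ξ he)
    (Filter.mem_of_superset (isOpen_Ucut.mem_nhds hξ) fun ζ hζ =>
      (cont_ker hζ).aestronglyMeasurable)
    (integrable_leg hp hξ) (continuous_const.mul (cont_ker hξ)).aestronglyMeasurable
    (.of_forall fun y ζ hζ => by
      rw [norm_mul, norm_neg, Complex.norm_real, Real.norm_of_nonneg p0]
      exact mul_le_mul_of_nonneg_left (norm_ker_le (by linarith) hc (h ζ hζ y).2) p0)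
    (((integrable_exp_abs (sub_pos.2 p1)).const_mul _).const_mul _)
    (.of_forall fun y ζ hζ => by
      have := (((hasDerivAt_id ζ).const_add (Real.cosh y : ℂ)).cpow_const (c := -(p : ℂ))
        (h ζ hζ y).1).const_mul (Complex.exp (μ * y))
      refine this.congr_deriv ?_
      rw [show -((p + 1 : ℝ) : ℂ) = -(p : ℂ) - 1 by push_cast; ring]
      simp only [id]
      ring)).2
  rwa [integral_const_mul] at this

lemma diff_leg (hp : |μ.re| < p) : DifferentiableOn ℂ (leg p μ) Ucut := fun _ hξ =>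
  (hasDerivAt_leg hp hξ).differentiableAt.differentiableWithinAt

lemma hasDerivAt_ker (p : ℝ) {y : ℝ} (h : (Real.cosh y : ℂ) + ξ ∈ Complex.slitPlane) :
    HasDerivAt (fun y : ℝ => Complex.exp (μ * y) * ((Real.cosh y : ℂ) + ξ) ^ (-(p : ℂ)))
      (μ * (Complex.exp (μ * y) * ((Real.cosh y : ℂ) + ξ) ^ (-(p : ℂ))) - p * Real.sinh y *
        (Complex.exp (μ * y) * ((Real.cosh y : ℂ) + ξ) ^ (-((p + 1 : ℝ) : ℂ)))) y := by
  rw [Complex.ofReal_cosh] at h
  have := ((((hasDerivAt_id (y : ℂ)).const_mul μ).cexp).mul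
    (((Complex.hasDerivAt_cosh (y : ℂ)).add_const ξ).cpow_const (c := -(p : ℂ)) h)).comp_ofReal
  simp only [Complex.ofReal_cosh, Complex.ofReal_sinh]
  refine this.congr_deriv ?_
  rw [show -((p + 1 : ℝ) : ℂ) = -(p : ℂ) - 1 by push_cast; ring]
  simp only [id]
  ring

lemma ker_succ (p : ℝ) {s : ℂ} (h : s ≠ 0) : s ^ (-(p : ℂ)) = s * s ^ (-((p + 1 : ℝ) : ℂ)) := by
  rw [show -(p : ℂ) = 1 + -((p + 1 : ℝ) : ℂ) by push_cast; ring, Complex.cpow_add _ _ h,
    Complex.cpow_one]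

/-- Legendre's equation. -/
lemma ode_leg (hμ : |μ.re| < 1 / 2) : ∀ ξ ∈ Ucut,
    (1 - ξ ^ 2) * deriv (deriv (leg (1 / 2) μ)) ξ - 2 * ξ * deriv (leg (1 / 2) μ) ξ
      + (μ - 1 / 2) * (μ - 1 / 2 + 1) * leg (1 / 2) μ ξ = 0 := by
  intro ξ hξ
  have p1 : |μ.re| < 1 / 2 + 1 := by linarith
  have p2 : |μ.re| < 1 / 2 + 1 + 1 := by linarith
  have d1 : deriv (leg (1 / 2) μ) =ᶠ[𝓝 ξ] fun ζ => -((1 / 2 : ℝ) : ℂ) * leg (1 / 2 + 1) μ ζ :=
    Filter.mem_of_superset (isOpen_Ucut.mem_nhds hξ) fun ζ hζ => (hasDerivAt_leg hμ hζ).deriv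
  rw [d1.deriv_eq, ((hasDerivAt_leg p1 hξ).const_mul _).deriv, (hasDerivAt_leg hμ hξ).deriv]
  obtain ⟨e, c, he, hc, h⟩ := cut_lower hξ
  replace h := h ξ (mem_ball_self he)
  have i0 := integrable_leg hμ hξ
  have i1 := integrable_leg p1 hξ
  have i2 := integrable_leg p2 hξ
  have i3 : Integrable fun y : ℝ => (Real.sinh y : ℂ) *
      (Complex.exp (μ * y) * ((Real.cosh y : ℂ) + ξ) ^ (-((1 / 2 + 1 : ℝ) : ℂ))) := by
    refine ((integrable_exp_abs (sub_pos.2 hμ)).const_mul (c ^ (-(1 / 2 + 1 : ℝ)))).mono'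
      (Continuous.mul (by fun_prop) (cont_ker hξ)).aestronglyMeasurable (.of_forall fun y => ?_)
    have a : ‖(Real.sinh y : ℂ)‖ ≤ Real.exp |y| := by
      rw [Complex.norm_real, Real.norm_eq_abs, Real.abs_sinh, Real.sinh_eq]
      linarith [Real.exp_pos (-|y|), Real.exp_pos |y|]
    rw [norm_mul]
    refine (mul_le_mul a (norm_ker_le (by norm_num) hc (h y).2) (norm_nonneg _)
      (by positivity)).trans (le_of_eq ?_)
    rw [mul_left_comm, ← Real.exp_add]
    congr 2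
    ring
  have key := integral_eq_zero_of_hasDerivAt_of_integrable (fun y =>
    (((Real.hasDerivAt_sinh y).ofReal_comp.mul (hasDerivAt_ker (μ := μ) (1 / 2 + 1) (h y).1)).const_mul
      (1 / 2 : ℂ)).add ((hasDerivAt_ker (μ := μ) (1 / 2) (h y).1).const_mul μ) |>.congr_deriv
      (show _ = (1 - ξ ^ 2) * (3 / 4) * (Complex.exp (μ * y) *
          ((Real.cosh y : ℂ) + ξ) ^ (-((1 / 2 + 1 + 1 : ℝ) : ℂ))) + ξ * (Complex.exp (μ * y) *
          ((Real.cosh y : ℂ) + ξ) ^ (-((1 / 2 + 1 : ℝ) : ℂ))) + (μ ^ 2 - 1 / 4) *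
          (Complex.exp (μ * y) * ((Real.cosh y : ℂ) + ξ) ^ (-((1 / 2 : ℝ) : ℂ))) by
        have s0 := Complex.slitPlane_ne_zero (h y).1
        have t : (Real.sinh y : ℂ) ^ 2 = (Real.cosh y : ℂ) ^ 2 - 1 := by
          exact_mod_cast Real.sinh_sq y
        rw [ker_succ (1 / 2) s0, ker_succ (1 / 2 + 1) s0]
        generalize ((Real.cosh y : ℂ) + ξ) ^ (-((1 / 2 + 1 + 1 : ℝ) : ℂ)) = w
        generalize (Real.sinh y : ℂ) = S at t
        generalize (Real.cosh y : ℂ) = C at t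
        push_cast
        linear_combination (-3 / 4 * Complex.exp (μ * y) * w) * t))
    (((i2.const_mul _).add (i1.const_mul _)).add (i0.const_mul _))
    ((i3.const_mul _).add (i0.const_mul _))
  rw [integral_add, integral_add, integral_const_mul, integral_const_mul,
    integral_const_mul] at key
  · change _ * leg (1 / 2 + 1 + 1) μ ξ + _ * leg (1 / 2 + 1) μ ξ + _ * leg (1 / 2) μ ξ = 0 at key
    generalize leg (1 / 2 + 1 + 1) μ ξ = A, leg (1 / 2 + 1) μ ξ = B, leg (1 / 2) μ ξ = C at key ⊢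
    push_cast
    linear_combination key
  exacts [i2.const_mul _, i1.const_mul _, (i2.const_mul _).add (i1.const_mul _), i0.const_mul _]

end Pool.Agent.Lib.MP_322279_an.All
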