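import Pool.Agent.Lib.MP_322279_an.All.Leg

/-!
Dependence of Mehler's integral on the degree.
-/

namespace Pool.Agent.Lib.MP_322279_an.All

open MeasureTheory Set Filter Topology Metric
open scoped ContDiff

lemma leg_neg (p : ℝ) (μ ξ : ℂ) : leg p (-μ) ξ = leg p μ ξ := by
  unfold leg
  rw [← integral_neg_eq_self]
  simp only [Real.cosh_neg, Complex.ofReal_neg, neg_mul_neg]

lemma legmu_cont {ξ : ℂ} (hξ : ξ ∈ Ucut) :
    Continuous fun y : ℝ => ((Real.cosh y : ℂ) + ξ) ^ (-((1 / 2 : ℝ) : ℂ)) := by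
  obtain ⟨ε, c, hε, -, h⟩ := cut_lower hξ
  exact Continuous.cpow (by fun_prop) continuous_const fun y => (h ξ (mem_ball_self hε) y).1

lemma legmu_bd {ξ : ℂ} (hξ : ξ ∈ Ucut) : ∃ C : ℝ, 0 ≤ C ∧ ∀ y : ℝ,
    ‖((Real.cosh y : ℂ) + ξ) ^ (-((1 / 2 : ℝ) : ℂ))‖ ≤ C * Real.exp (-(1 / 2) * |y|) := by
  obtain ⟨ε, c, hε, hc, h⟩ := cut_lower hξ
  refine ⟨c ^ (-(1 / 2 : ℝ)), by positivity, fun y => ?_⟩
  rw [← Complex.ofReal_neg, Complex.norm_cpow_real, mul_comm (-(1 / 2) : ℝ), Real.exp_mul,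
    ← Real.mul_rpow hc.le (Real.exp_pos _).le]
  exact Real.rpow_le_rpow_of_nonpos (by positivity) (h ξ (mem_ball_self hε) y).2 (by norm_num)

lemma legmu_exp {μ : ℂ} (hμ : μ ∈ ball (0 : ℂ) (1 / 4)) (y : ℝ) :
    ‖Complex.exp (μ * y)‖ ≤ Real.exp (1 / 4 * |y|) := by
  refine (Complex.norm_exp_le_exp_norm _).trans (Real.exp_le_exp.2 ?_)
  rw [norm_mul, Complex.norm_real, Real.norm_eq_abs]
  exact mul_le_mul_of_nonneg_right (mem_ball_zero_iff.1 hμ).le (abs_nonneg _)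

lemma legmu_int {ξ : ℂ} (hξ : ξ ∈ Ucut) {μ : ℂ} (hμ : μ ∈ ball (0 : ℂ) (1 / 4)) :
    Integrable fun y : ℝ =>
      Complex.exp (μ * y) * ((Real.cosh y : ℂ) + ξ) ^ (-((1 / 2 : ℝ) : ℂ)) := by
  obtain ⟨C, hC, h⟩ := legmu_bd hξ
  refine ((integrable_exp_abs (b := 1 / 4) (by norm_num)).const_mul C).mono'
    (Continuous.mul (by fun_prop) (legmu_cont hξ)).aestronglyMeasurable (.of_forall fun y => ?_)
  rw [norm_mul]
  refine (mul_le_mul (legmu_exp hμ y) (h y) (norm_nonneg _) (Real.exp_pos _).le).trans_eq ?_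
  rw [mul_left_comm, ← Real.exp_add]
  congr 2
  ring

lemma diff_leg_mu {ξ : ℂ} (hξ : ξ ∈ Ucut) :
    DifferentiableOn ℂ (fun μ => leg (1 / 2) μ ξ) (ball 0 (1 / 4)) := by
  intro μ₀ h₀
  obtain ⟨C, hC, h⟩ := legmu_bd hξ
  have hc := legmu_cont hξ
  refine (hasDerivAt_integral_of_dominated_loc_of_deriv_le (μ := volume)
    (F := fun (μ : ℂ) (y : ℝ) =>
      Complex.exp (μ * y) * ((Real.cosh y : ℂ) + ξ) ^ (-((1 / 2 : ℝ) : ℂ)))
    (F' := fun (μ : ℂ) (y : ℝ) =>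
      Complex.exp (μ * y) * y * ((Real.cosh y : ℂ) + ξ) ^ (-((1 / 2 : ℝ) : ℂ)))
    (bound := fun y => 8 * C * Real.exp (-(1 / 8) * |y|)) (isOpen_ball.mem_nhds h₀)
    (.of_forall fun μ => (Continuous.mul (by fun_prop) hc).aestronglyMeasurable)
    (legmu_int hξ h₀) (Continuous.mul (by fun_prop) hc).aestronglyMeasurable
    (.of_forall fun y μ hμ => ?_)
    ((integrable_exp_abs (b := 1 / 8) (by norm_num)).const_mul _)
    (.of_forall fun y μ _ => ?_)).2.differentiableAt.differentiableWithinAt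
  · have h1 : ‖(y : ℂ)‖ ≤ 8 * Real.exp (1 / 8 * |y|) := by
      rw [Complex.norm_real, Real.norm_eq_abs]
      linarith [Real.add_one_le_exp (1 / 8 * |y|)]
    rw [norm_mul, norm_mul]
    refine (mul_le_mul (mul_le_mul (legmu_exp hμ y) h1 (norm_nonneg _) (Real.exp_pos _).le) (h y)
      (norm_nonneg _) (by positivity)).trans_eq ?_
    rw [show -(1 / 8) * |y| = 1 / 4 * |y| + 1 / 8 * |y| + -(1 / 2) * |y| by ring, Real.exp_add,
      Real.exp_add]
    ring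
  · exact ((hasDerivAt_mul_const (y : ℂ)).cexp).mul_const _

lemma leg_one_ne : ∀ᶠ μ in 𝓝 (0 : ℂ), leg (1 / 2) μ 1 ≠ 0 := by
  have h1 : (1 : ℂ) ∈ Ucut := Or.inr (by norm_num)
  have h0 : (0 : ℂ) ∈ ball (0 : ℂ) (1 / 4) := mem_ball_self (by norm_num)
  refine ((diff_leg_mu h1).differentiableAt (isOpen_ball.mem_nhds h0)).continuousAt.eventually_ne ?_
  have hp : ∀ y : ℝ, 0 < Real.cosh y + 1 := fun y => by linarith [Real.cosh_pos y]
  have e : (fun y : ℝ => Complex.exp (0 * y) * ((Real.cosh y : ℂ) + 1) ^ (-((1 / 2 : ℝ) : ℂ))) =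
      fun y : ℝ => (((Real.cosh y + 1) ^ (-(1 / 2 : ℝ)) : ℝ) : ℂ) := by
    funext y
    rw [zero_mul, Complex.exp_zero, one_mul, Complex.ofReal_cpow (hp y).le, Complex.ofReal_add,
      Complex.ofReal_one, Complex.ofReal_neg]
  have hi := legmu_int h1 h0
  rw [e] at hi
  unfold leg
  rw [e, integral_complex_ofReal, Complex.ofReal_ne_zero]
  have hi' : Integrable fun y : ℝ => (Real.cosh y + 1) ^ (-(1 / 2 : ℝ)) := by
    simpa only [RCLike.re_to_complex, Complex.ofReal_re] using hi.re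
  refine (integral_pos_of_integrable_nonneg_nonzero (x := 0) ?_ hi'
    (fun y => Real.rpow_nonneg (hp y).le _) (Real.rpow_pos_of_pos (hp 0) _).ne').ne'
  exact Continuous.rpow_const (by fun_prop) fun y => Or.inl (hp y).ne'

end Pool.Agent.Lib.MP_322279_an.All
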