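import Pool.Agent.Lib.MP_322279_an.All.LegMu
import Pool.Agent.Lib.MP_322279_an.All.Asymp

/-!
Zeros of Mehler's integral far out on a non-real ray, with degree close to `-1/2`.
-/

namespace Pool.Agent.Lib.MP_322279_an.All

open MeasureTheory Set Filter Topology Metric
open scoped ContDiff

lemma int_exp_eq {m : ℂ} (hm : m ≠ 0) :
    ∫ x in (-1 : ℝ)..1, Complex.exp (m * x) = (Complex.exp m - Complex.exp (-m)) / m := by
  rw [integral_exp_mul_complex hm]
  simp

lemma norm_piI : ‖(Real.pi : ℂ) * Complex.I‖ = Real.pi := by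
  simp [abs_of_pos Real.pi_pos]

lemma sphere_ne_zero {m : ℂ} (hm : m ∈ sphere ((Real.pi : ℂ) * Complex.I) 1) : m ≠ 0 := by
  rintro rfl
  rw [mem_sphere, dist_zero_left, norm_piI] at hm
  linarith [Real.pi_gt_three]

lemma sphere_exp_ne {m : ℂ} (hm : m ∈ sphere ((Real.pi : ℂ) * Complex.I) 1) :
    Complex.exp m - Complex.exp (-m) ≠ 0 := by
  intro h
  obtain ⟨n, hn⟩ := Complex.exp_eq_exp_iff_exists_int.1 (sub_eq_zero.1 h)
  have e : m - Real.pi * Complex.I = ((n - 1 : ℤ) : ℂ) * (Real.pi * Complex.I) := by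
    push_cast
    linear_combination (1 / 2 : ℂ) * hn
  rw [mem_sphere, dist_eq_norm, e, norm_mul, norm_piI, Complex.norm_intCast] at hm
  rcases eq_or_ne (n - 1) 0 with k | k
  · rw [k] at hm
    simp at hm
  · have k1 : (1 : ℝ) ≤ |((n - 1 : ℤ) : ℝ)| := by exact_mod_cast Int.one_le_abs k
    nlinarith [Real.pi_gt_three]

lemma sphere_lower {c : ℂ} (hc : c ≠ 0) : ∃ a : ℝ, 0 < a ∧
    ∀ m ∈ sphere ((Real.pi : ℂ) * Complex.I) 1,
      a ≤ ‖c * ∫ x in (-1 : ℝ)..1, Complex.exp (m * x)‖ := by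
  obtain ⟨a, h1, h2⟩ := (isCompact_sphere ((Real.pi : ℂ) * Complex.I) 1).exists_forall_le'
    (f := fun m => ‖c * ((Complex.exp m - Complex.exp (-m)) / m)‖) (a := 0)
    ((continuousOn_const.mul (ContinuousOn.div (by fun_prop) continuousOn_id
      fun m hm => sphere_ne_zero hm)).norm)
    fun m hm => norm_pos_iff.2 (mul_ne_zero hc (div_ne_zero (sphere_exp_ne hm) (sphere_ne_zero hm)))
  exact ⟨a, h1, fun m hm => by rw [int_exp_eq (sphere_ne_zero hm)]; exact h2 m hm⟩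

theorem exists_leg_zero {w : ℂ} (hw : w.im ≠ 0) {ε : ℝ} (hε : 0 < ε) :
    ∃ (μ : ℂ) (R : ℝ), 0 < R ∧ ‖μ‖ < ε ∧ μ.re ≤ 0 ∧ leg (1 / 2) μ (R * w) = 0 ∧
      leg (1 / 2) μ 1 ≠ 0 := by
  have w0 : w ≠ 0 := by
    rintro rfl
    simp at hw
  have hc : w ^ (-(1 / 2 : ℂ)) ≠ 0 := fun k => w0 (Complex.cpow_eq_zero_iff _ _ |>.1 k).1
  obtain ⟨a, ha, hs⟩ := sphere_lower hc
  obtain ⟨δ, hδ, h1⟩ := Metric.eventually_nhds_iff_ball.1 leg_one_ne
  obtain ⟨L, hL, L1⟩ := ((leg_asymp hw (η := a / 3) (by positivity)).and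
    (eventually_gt_atTop (5 / min (min ε δ) (1 / 4)))).exists
  have r0 : 0 < min (min ε δ) (1 / 4) := by positivity
  have L0 : 0 < L := lt_trans (by positivity) L1
  have n5 : ∀ m ∈ closedBall ((Real.pi : ℂ) * Complex.I) 1, ‖m‖ ≤ 5 := fun m hm => by
    have := norm_le_of_mem_closedBall hm
    rw [norm_piI] at this
    linarith [Real.pi_lt_four]
  have sm : ∀ m ∈ closedBall ((Real.pi : ℂ) * Complex.I) 1,
      ‖m / L‖ < min (min ε δ) (1 / 4) := fun m hm => by
    rw [norm_div, Complex.norm_real, Real.norm_eq_abs, abs_of_pos L0, div_lt_iff₀ L0]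
    rw [div_lt_iff₀ r0] at L1
    linarith [n5 m hm]
  have hU : ((Real.exp L : ℝ) : ℂ) * w ∈ Ucut := Or.inl (by
    rw [Complex.im_ofReal_mul]
    exact mul_ne_zero (Real.exp_pos L).ne' hw)
  obtain ⟨z, hz, h0⟩ := Cap.exists_zero_of_sphere
    (f := fun m => ((Real.exp (L / 2) / L : ℝ) : ℂ) * leg (1 / 2) (m / L) (Real.exp L * w))
    (z₀ := (Real.pi : ℂ) * Complex.I) (r := 1) (ε := a / 2) one_pos
    (((diff_leg_mu hU).comp (f := fun m : ℂ => m / L) (by fun_prop) fun m hm =>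
      mem_ball_zero_iff.2 ((sm m hm).trans_le (min_le_right _ _))).const_mul _)
    (fun m hm => by
      have k1 := hL m (n5 m (sphere_subset_closedBall hm))
      have k2 := hs m hm
      have k3 := norm_sub_norm_le (w ^ (-(1 / 2 : ℂ)) * ∫ x in (-1 : ℝ)..1, Complex.exp (m * x))
        (((Real.exp (L / 2) / L : ℝ) : ℂ) * leg (1 / 2) (m / L) (Real.exp L * w))
      rw [norm_sub_rev] at k3
      linarith)
    (by
      have k1 := hL _ (n5 _ (mem_closedBall_self zero_le_one))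
      rw [int_exp_eq (mul_ne_zero (by exact_mod_cast Real.pi_ne_zero) Complex.I_ne_zero),
        Complex.exp_neg, Complex.exp_pi_mul_I] at k1
      norm_num at k1 ⊢
      linarith)
  have hz0 : leg (1 / 2) (z / L) (Real.exp L * w) = 0 := by
    refine (mul_eq_zero.1 h0).resolve_left ?_
    exact_mod_cast (div_pos (Real.exp_pos _) L0).ne'
  have b1 : ‖z / L‖ < ε := (sm z hz).trans_le ((min_le_left _ _).trans (min_le_left _ _))
  have b2 : leg (1 / 2) (z / L) 1 ≠ 0 := h1 _ (mem_ball_zero_iff.2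
    ((sm z hz).trans_le ((min_le_left _ _).trans (min_le_right _ _))))
  rcases le_total (z / L).re 0 with k | k
  · exact ⟨z / L, Real.exp L, Real.exp_pos L, b1, k, hz0, b2⟩
  · exact ⟨-(z / L), Real.exp L, Real.exp_pos L, by rwa [norm_neg], by simpa using k,
      by rwa [leg_neg], by rwa [leg_neg]⟩

end Pool.Agent.Lib.MP_322279_an.All
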