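import Pool.Agent.Lib.MP_322279_an.All.DualGen
import Pool.Agent.Lib.MP_322279_an.All.Hom
import Pool.Agent.Lib.MP_322279_an.All.Zero

/-!
The counterexample in every circular cone other than the half-space.
-/

namespace Pool.Agent.Lib.MP_322279_an.All

open MeasureTheory Set Filter Topology Metric
open scoped ContDiff

theorem main_all {h p : ℝ} (h1 : -1 < h) (h2 : h < 1) (h0 : h ≠ 0) (hp : 6 < p) :
    ∃ (d : Fin 3 → ℂ) (c : ℝ), 0 < c ∧ (∀ i, c ≤ (d i).re) ∧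
    ∀ (Ω : Set E3) (ρ R : ℝ), IsOpen Ω → 0 < R → Ω ⊆ ball 0 R → 0 < ρ → ρ ≤ 1 →
      Ω ∩ ball 0 ρ = Oh h ∩ ball 0 ρ →
    ∃ f, IsTest Ω f ∧ (∀ x, (f x).im = 0) ∧ ∀ u, IsSolution (diagM d) Ω f u →
      ∀ r, 0 < r → ¬ MemLp u (ENNReal.ofReal p) (volume.restrict (Ω ∩ ball 0 r)) := by
  have s0 : 0 < 3 / p := by positivity
  have s1 : 3 / p < 1 / 2 := by rw [div_lt_iff₀ (by linarith)]; linarith
  obtain ⟨μ, R, R0, m1, m2, z, z1⟩ := exists_leg_zero (w := h + Complex.I) (by simp)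
    (sub_pos.2 s1)
  obtain ⟨a, ha, e⟩ := exists_coef h1 h2 h0 R0
  have m3 := (Complex.abs_re_le_norm μ).trans_lt m1
  have m4 : |μ.re| < 1 / 2 := by linarith
  have m5 := (abs_lt.1 m3).1
  have hG := diff_leg m4
  obtain ⟨L, lip⟩ := lip_Vf (κ := (μ - 1 / 2) / 2) h1 ha hG (by rw [e]; exact z)
  have a2 : 0 < a.im ^ 2 := by positivity
  set η : ℝ := a.im ^ 2 / (1 + |a.re|) with hη
  have η0 : 0 < η := by positivity
  have η1 : 0 < η * a.re + a.im ^ 2 := by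
    have : η * (1 + |a.re|) = a.im ^ 2 := div_mul_cancel₀ _ (by positivity)
    nlinarith [mul_le_mul_of_nonneg_left (neg_abs_le a.re) η0.le]
  set l : ℂ := η - a.im * Complex.I with hl
  have hc := lt_min η0 η1
  have hd : ∀ i, min η (η * a.re + a.im ^ 2) ≤ (dv l a i).re := by
    intro i
    fin_cases i <;> simp [dv, hl, sq]
  have r : (μ - 1 / 2).re = μ.re - 1 / 2 := by simp
  exact ⟨dv l a, _, hc, hd, fun Ω ρ R o R0 hR ρ0 ρ1 hρ =>
    dual_gen (ν := μ - 1 / 2) o R0 hR ρ0 ρ1 hρ h1 h2 hc hd (by linarith) (by rw [r]; linarith)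
    (by rw [r]; linarith) (cd_Vf ha hG) (hom_Vf ha) (pde_Vf ha hG (ode_leg m4)) lip
    (by rw [axis_Vf]; exact z1)⟩

end Pool.Agent.Lib.MP_322279_an.All
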