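import Pool.Agent.Lib.MP_322279_an.All.Defs

/-!
Homogeneous solutions `q ^ (ν / 2) G (x₃ q ^ (-1/2))`, `q = a (x₁² + x₂²) + x₃²`.
-/

namespace Pool.Agent.Lib.MP_322279_an.All

open MeasureTheory Set Filter Topology Metric
open scoped ContDiff

variable {a κ ν l : ℂ} {G : ℂ → ℂ}

lemma q_slit (ha : a.im ≠ 0) {ρ z : ℝ} (hz : ρ ≠ 0 ∨ 0 < z) :
    a * (ρ : ℂ) + ((z ^ 2 : ℝ) : ℂ) ∈ Complex.slitPlane := by
  by_cases h : ρ = 0
  · have := hz.resolve_left (not_not.2 h)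
    subst h
    rw [Complex.ofReal_zero, mul_zero, zero_add]
    exact Complex.ofReal_mem_slitPlane.2 (by positivity)
  · refine Or.inr ?_
    rw [Complex.add_im, Complex.ofReal_im, add_zero, Complex.im_mul_ofReal]
    exact mul_ne_zero ha h

lemma Pde_sq {q : ℂ} (hq : q ≠ 0) : Complex.exp (-Complex.log q / 2) ^ 2 * q = 1 := by
  rw [sq, ← Complex.exp_add, show -Complex.log q / 2 + -Complex.log q / 2 = -Complex.log q by ring,
    Complex.exp_neg, Complex.exp_log hq, inv_mul_cancel₀ hq]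

lemma xi_cut (ha : a.im ≠ 0) {ρ z : ℝ} (hz : ρ ≠ 0 ∨ 0 < z) :
    (z : ℂ) * Complex.exp (-Complex.log (a * (ρ : ℂ) + ((z ^ 2 : ℝ) : ℂ)) / 2) ∈ Ucut := by
  by_cases h : ρ = 0
  · have := hz.resolve_left (not_not.2 h)
    subst h
    refine Or.inr ?_
    have e : -Complex.log ((z ^ 2 : ℝ) : ℂ) / 2 = ((-Real.log (z ^ 2) / 2 : ℝ) : ℂ) := by
      rw [← Complex.ofReal_log (by positivity)]
      push_cast
      rfl
    rw [Complex.ofReal_zero, mul_zero, zero_add, e, ← Complex.ofReal_exp, ← Complex.ofReal_mul,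
      Complex.ofReal_re]
    have := mul_pos this (Real.exp_pos (-Real.log (z ^ 2) / 2))
    linarith
  · have e := Pde_sq (Complex.slitPlane_ne_zero (q_slit ha hz))
    set q := a * (ρ : ℂ) + ((z ^ 2 : ℝ) : ℂ) with hq
    have qi : q.im ≠ 0 := by
      rw [hq, Complex.add_im, Complex.ofReal_im, add_zero, Complex.im_mul_ofReal]
      exact mul_ne_zero ha h
    set ξ := (z : ℂ) * Complex.exp (-Complex.log q / 2) with hξ
    have e2 : ξ * ξ * q = ((z ^ 2 : ℝ) : ℂ) := by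
      rw [hξ]
      push_cast
      linear_combination (z : ℂ) ^ 2 * e
    by_contra k
    simp only [Ucut, mem_ofPred_eq, not_or, not_not, not_lt] at k
    have e3 := congrArg Complex.im e2
    rw [Complex.ofReal_im, Complex.mul_im, Complex.mul_im, Complex.mul_re, k.1] at e3
    have : ξ.re * ξ.re * q.im = 0 := by linarith
    rcases mul_eq_zero.1 this with e4 | e4
    · nlinarith [k.2]
    · exact qi e4

/-- The quadratic form. -/
noncomputable def PdeQ (a : ℂ) (x : E3) : ℂ :=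
  a * ((x 0 ^ 2 + x 1 ^ 2 : ℝ) : ℂ) + ((x 2 ^ 2 : ℝ) : ℂ)

/-- The angular variable. -/
noncomputable def PdeX (a : ℂ) (x : E3) : ℂ := x 2 * Complex.exp (-Complex.log (PdeQ a x) / 2)

/-- The profile of the radial part of a derivative. -/
noncomputable def PdeT (κ : ℂ) (G : ℂ → ℂ) (ξ : ℂ) : ℂ := κ * G ξ - ξ * deriv G ξ / 2

/-- The coefficients of the gradient of the quadratic form. -/
noncomputable def PdeC (a : ℂ) (i : Fin 3) : ℂ := if i = 2 then 2 else 2 * a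

lemma Pde_Vf (x : E3) :
    Vf a κ G x = Complex.exp (κ * Complex.log (PdeQ a x)) * G (PdeX a x) := rfl

lemma Pde_cdQ : ContDiff ℝ ∞ (PdeQ a) :=
  (contDiff_const.mul (Complex.ofRealCLM.contDiff.comp
    (((cd_coord 0).pow 2).add ((cd_coord 1).pow 2)))).add
    (Complex.ofRealCLM.contDiff.comp ((cd_coord 2).pow 2))

lemma Pde_cdL (ha : a.im ≠ 0) : ContDiffOn ℝ ∞ (fun x => Complex.log (PdeQ a x)) Dax :=
  fun x hx => (((Complex.contDiffAt_log (show PdeQ a x ∈ _ from q_slit ha hx)).restrict_scalars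
    ℝ).comp x Pde_cdQ.contDiffAt).contDiffWithinAt

lemma Pde_cdX (ha : a.im ≠ 0) : ContDiffOn ℝ ∞ (PdeX a) Dax :=
  (Complex.ofRealCLM.contDiff.comp (cd_coord 2)).contDiffOn.mul
    (((Pde_cdL ha).neg.div_const 2).cexp)

lemma Pde_T (hG : DifferentiableOn ℂ G Ucut) : DifferentiableOn ℂ (PdeT κ G) Ucut :=
  (hG.const_mul κ).sub ((differentiableOn_id.mul (hG.deriv isOpen_Ucut)).div_const 2)

lemma cd_Vf (ha : a.im ≠ 0) (hG : DifferentiableOn ℂ G Ucut) :
    ContDiffOn ℝ ∞ (Vf a κ G) Dax := by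
  exact ((contDiffOn_const.mul (Pde_cdL ha)).cexp).mul
    (((hG.contDiffOn isOpen_Ucut).restrict_scalars ℝ).comp (Pde_cdX ha) fun _ hx => xi_cut ha hx)

lemma Pde_pdQ (i : Fin 3) (x : E3) : pd i (PdeQ a) x = PdeC a i * x i := by
  have e : PdeQ a = fun y : E3 => a * (((y 0 : ℝ) : ℂ) ^ 2 + ((y 1 : ℝ) : ℂ) ^ 2) +
      ((y 2 : ℝ) : ℂ) ^ 2 := by
    funext y; simp [PdeQ]
  have d0 := diff_coord (hd_sq (x 0))
  have d1 := diff_coord (hd_sq (x 1))
  have d2 := diff_coord (hd_sq (x 2))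
  rw [e, pd_add ((d0.fun_add d1).const_mul a) d2, pd_const_mul a (d0.fun_add d1), pd_add d0 d1,
    pd_coord (hd_sq (x 0)), pd_coord (hd_sq (x 1)), pd_coord (hd_sq (x 2))]
  fin_cases i <;> simp [PdeC] <;> ring

lemma Pde_exp (κ μ L : ℂ) (n : ℕ) (h : μ = κ - n / 2) :
    Complex.exp (μ * L) = Complex.exp (κ * L) * Complex.exp (-L / 2) ^ n := by
  rw [← Complex.exp_nat_mul, ← Complex.exp_add, h]
  congr 1
  ring

lemma Pde_pd (ha : a.im ≠ 0) (hG : DifferentiableOn ℂ G Ucut) (i : Fin 3) {x : E3}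
    (hx : x ∈ Dax) : pd i (Vf a κ G) x = PdeC a i * x i * Vf a (κ - 1) (PdeT κ G) x +
      (if i = 2 then 1 else 0) * Vf a (κ - 1 / 2) (deriv G) x := by
  have hs : PdeQ a x ∈ Complex.slitPlane := q_slit ha hx
  have h0 := Complex.slitPlane_ne_zero hs
  have dQ : DifferentiableAt ℝ (PdeQ a) x := Pde_cdQ.differentiable (by simp) x
  have dX : DifferentiableAt ℝ (PdeX a) x := diffAt isOpen_Dax (Pde_cdX ha) hx
  have hE : ∀ c : ℂ, HasDerivAt (fun q => Complex.exp (c * Complex.log q))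
      (Complex.exp (c * Complex.log (PdeQ a x)) * (c * (PdeQ a x)⁻¹)) (PdeQ a x) := fun c =>
    ((Complex.hasDerivAt_log hs).const_mul c).cexp
  have dE : ∀ c : ℂ, DifferentiableAt ℝ (fun y => Complex.exp (c * Complex.log (PdeQ a y))) x :=
    fun c => ((hE c).differentiableAt.restrictScalars ℝ).comp x dQ
  have hg := hasDerivAt_of_on isOpen_Ucut hG (show PdeX a x ∈ Ucut from xi_cut ha hx)
  have dg : DifferentiableAt ℝ (fun y => G (PdeX a y)) x :=
    (hg.differentiableAt.restrictScalars ℝ).comp x dX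
  have eX : PdeX a = fun y : E3 => ((y 2 : ℝ) : ℂ) *
      Complex.exp (-1 / 2 * Complex.log (PdeQ a y)) := by
    funext y
    rw [PdeX]
    congr 2
    ring
  have pX : pd i (PdeX a) x = (if i = 2 then 1 else 0) * Complex.exp (-Complex.log (PdeQ a x) / 2)
      - PdeX a x * (PdeC a i * x i) * (PdeQ a x)⁻¹ / 2 := by
    conv_lhs => rw [eX]
    rw [pd_mul (diff_coord (hd_id _)) (dE _), pd_coord (hd_id _), pd_comp_complex dQ (hE _),
      Pde_pdQ, PdeX, show -1 / 2 * Complex.log (PdeQ a x) = -Complex.log (PdeQ a x) / 2 by ring]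
    simp only [eq_comm (a := (2 : Fin 3))]
    ring
  have e : Vf a κ G = fun y => Complex.exp (κ * Complex.log (PdeQ a y)) * G (PdeX a y) := rfl
  have e2 : (PdeQ a x)⁻¹ = Complex.exp (-Complex.log (PdeQ a x) / 2) ^ 2 :=
    (eq_inv_of_mul_eq_one_left (Pde_sq h0)).symm
  rw [e, pd_mul (dE κ) dg, pd_comp_complex dQ (hE κ), pd_comp_complex dX hg, pX, Pde_pdQ,
    Pde_Vf, Pde_Vf, Pde_exp κ (κ - 1) _ 2 (by push_cast; ring),
    Pde_exp κ (κ - 1 / 2) _ 1 (by push_cast; ring), e2, PdeT]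
  ring

lemma Pde_pd2 (ha : a.im ≠ 0) (hG : DifferentiableOn ℂ G Ucut) (i : Fin 3) {x : E3}
    (hx : x ∈ Dax) : pd i (pd i (Vf a κ G)) x = PdeC a i * Vf a (κ - 1) (PdeT κ G) x +
      PdeC a i * x i * pd i (Vf a (κ - 1) (PdeT κ G)) x +
      (if i = 2 then 1 else 0) * pd i (Vf a (κ - 1 / 2) (deriv G)) x := by
  have e : pd i (Vf a κ G) =ᶠ[𝓝 x] fun y => PdeC a i * (((y i : ℝ) : ℂ) *
      Vf a (κ - 1) (PdeT κ G) y) + (if i = 2 then 1 else 0) * Vf a (κ - 1 / 2) (deriv G) y := by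
    filter_upwards [isOpen_Dax.mem_nhds hx] with y hy
    rw [Pde_pd ha hG i hy, mul_assoc]
  have d1 := diffAt isOpen_Dax (cd_Vf (κ := κ - 1) ha (Pde_T (κ := κ) hG)) hx
  have d2 := diffAt isOpen_Dax (cd_Vf (κ := κ - 1 / 2) ha (hG.deriv isOpen_Ucut)) hx
  have d3 := diff_coord (hd_id (x i))
  rw [pd_congr e, pd_add ((d3.fun_mul d1).const_mul _) (d2.const_mul _),
    pd_const_mul _ (d3.fun_mul d1), pd_const_mul _ d2, pd_mul d3 d1, pd_coord (hd_id _), if_pos rfl]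
  ring

/-- The homogeneous function solves the equation if the profile solves Legendre's equation. -/
lemma pde_Vf (ha : a.im ≠ 0) (hG : DifferentiableOn ℂ G Ucut)
    (ho : ∀ ξ ∈ Ucut, (1 - ξ ^ 2) * deriv (deriv G) ξ - 2 * ξ * deriv G ξ + ν * (ν + 1) * G ξ = 0) :
    ∀ x ∈ Dax, op (diagM (dv l a)) (Vf a (ν / 2) G) x = 0 := by
  intro x hx
  have h0 := Pde_sq (Complex.slitPlane_ne_zero (show PdeQ a x ∈ _ from q_slit ha hx))
  have o := ho _ (show PdeX a x ∈ Ucut from xi_cut ha hx)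
  have eQ : PdeQ a x = a * (((x 0 : ℝ) : ℂ) ^ 2 + ((x 1 : ℝ) : ℂ) ^ 2) + ((x 2 : ℝ) : ℂ) ^ 2 := by
    simp [PdeQ]
  have eX : PdeX a x = x 2 * Complex.exp (-Complex.log (PdeQ a x) / 2) := rfl
  rw [op_diag, Fin.sum_univ_three]
  simp only [Pde_pd2 ha hG _ hx, Pde_pd ha (Pde_T hG) _ hx,
    Pde_pd ha (hG.deriv isOpen_Ucut) _ hx, Pde_Vf]
  rw [Pde_exp (ν / 2) (ν / 2 - 1) _ 2 (by push_cast; ring),
    Pde_exp (ν / 2) (ν / 2 - 1 - 1) _ 4 (by push_cast; ring),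
    Pde_exp (ν / 2) (ν / 2 - 1 - 1 / 2) _ 3 (by push_cast; ring),
    Pde_exp (ν / 2) (ν / 2 - 1 / 2 - 1) _ 3 (by push_cast; ring),
    Pde_exp (ν / 2) (ν / 2 - 1 / 2 - 1 / 2) _ 2 (by push_cast; ring)]
  simp only [PdeT, PdeC, dv]
  generalize Complex.exp (-Complex.log (PdeQ a x) / 2) = E at h0 eX ⊢
  generalize Complex.exp (ν / 2 * Complex.log (PdeQ a x)) = Y
  generalize deriv (PdeT (ν / 2) G) (PdeX a x) = T at *
  generalize deriv (deriv G) (PdeX a x) = g2 at *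
  generalize deriv G (PdeX a x) = g1 at *
  generalize G (PdeX a x) = g0 at *
  rw [eQ] at h0
  rw [eX] at o ⊢
  simp
  linear_combination (l * a * Y * E ^ 2) * o + (4 * l * a * Y * E ^ 2 *
    ((ν / 2 - 1) * (ν / 2 * g0 - x 2 * E * g1 / 2) - x 2 * E * T / 2)) * h0

end Pool.Agent.Lib.MP_322279_an.All
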