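import Pool.Agent.Lib.MP_322279_an.All.Defs

/-!
Smooth functions vanishing on the lateral boundary lie in the Sobolev space.
-/

namespace Pool.Agent.Lib.MP_322279_an.All

open MeasureTheory Set Filter Topology Metric
open scoped ContDiff

/-- `Good.hg` with a defining function that is smooth on `D` only. -/
lemma good_hg {Ω D K : Set E3} {ψ : E3 → ℂ} [IsFiniteMeasure (volume.restrict Ω)]
    (h : Good Ω D K ψ) (hΩ : IsOpen Ω)
    (hD : IsOpen D) (h1 : Ω ⊆ D) (hK : IsCompact K) (h2 : K ⊆ D) {b : E3 → ℝ} {M : ℝ}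
    (hb0 : Continuous b) (hb : ContDiffOn ℝ ∞ b D) (b1 : ∀ x ∈ Ω, 0 < b x)
    (b2 : ∀ x ∈ K, 0 < b x → x ∈ Ω)
    (b3 : ∀ x, x ∉ K → ψ x = 0 ∨ b x ≤ 0) (b4 : ∀ x ∈ Ω, ‖ψ x‖ ≤ M * b x) :
    HG Ω ψ fun i => pd i ψ := by
  obtain ⟨C, C0, hC⟩ := chi_bound
  have cd : ∀ k : ℕ, ContDiffOn ℝ ∞ (fun x => chi (k * b x)) D := fun k =>
    cd_chi.comp_contDiffOn (contDiffOn_const.mul hb)
  have ms := ae_restrict_mem (μ := volume) hΩ.measurableSet
  have ev : ∀ x ∈ Ω, ∀ᶠ k : ℕ in atTop, 2 < k * b x := fun x hx =>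
    (tendsto_natCast_atTop_atTop.atTop_mul_const (b1 x hx)).eventually_gt_atTop 2
  have ts : ∀ k : ℕ, IsTest Ω fun x => ψ x * chi (k * b x) := fun k => by
    refine isTest_of_compact (K := K ∩ {x | 1 ≤ k * b x}) (hK.inter_right
      (isClosed_le continuous_const (continuous_const.mul hb0))) hD
      (fun x hx => b2 x hx.1 ?_) (inter_subset_left.trans h2) (h.1.mul (cd k))
      fun x hx => ?_
    · exact pos_of_mul_pos_right (a := (k : ℝ)) (lt_of_lt_of_le one_pos hx.2) (Nat.cast_nonneg k)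
    · by_cases hx' : x ∈ K
      · rw [chi_zero (le_of_not_ge fun h => hx ⟨hx', h⟩), mul_zero]
      · rcases b3 x hx' with h | h
        · rw [h, zero_mul]
        · rw [chi_zero (by nlinarith [Nat.cast_nonneg (α := ℝ) k]), mul_zero]
  refine ⟨h.memLp hΩ h1 hK h2, fun i => (h.dpd hΩ hD hK i).memLp hΩ h1 hK h2, _, ts, ?_, fun i => ?_⟩
  · obtain ⟨B, B0, hB⟩ := h.bound hK h2
    refine tendsto_eLp (C := B + B) (fun k => ((ts k).memLp _).1.sub (h.memLp hΩ h1 hK h2).1)
      (fun k => ms.mono fun x hx => (norm_sub_le _ _).trans (add_le_add ?_ (hB x hx)))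
      (ms.mono fun x hx => (ev x hx).mono fun k hk => by simp [chi_one hk.le])
    rw [norm_mul]
    exact (mul_le_of_le_one_right (norm_nonneg _) (hC _).1).trans (hB x hx)
  · obtain ⟨B, B0, hB⟩ := (h.dpd hΩ hD hK i).bound hK h2
    obtain ⟨B', hB'⟩ := hK.exists_bound_of_continuousOn
      (f := fun x => fderiv ℝ b x (EuclideanSpace.single i 1))
      (((hb.continuousOn_fderiv_of_isOpen hD (by simp)).clm_apply continuousOn_const).mono h2)
    have e : ∀ k : ℕ, ∀ x ∈ Ω, pd i (fun x => ψ x * chi (k * b x)) x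
        = pd i ψ x * chi (k * b x)
          + ψ x * ((k * fderiv ℝ b x (EuclideanSpace.single i 1) : ℝ) * deriv chi (k * b x)) := by
      intro k x hx
      have db := (hb.contDiffAt (hD.mem_nhds (h1 hx))).differentiableAt (by simp)
      rw [pd_mul (diffAt hD h.1 (h1 hx)) (diffAt hD (cd k) (h1 hx)),
        pd_comp_real (b := fun x => k * b x) (db.const_mul _) (hd_chi _), fderiv_const_mul db]
      rfl
    refine tendsto_eLp (C := (B + |M| * |B'| * C) + B)
      (fun k => (((ts k).dpd i).memLp _).1.sub ((h.dpd hΩ hD hK i).memLp hΩ h1 hK h2).1)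
      (fun k => ms.mono fun x hx => (norm_sub_le _ _).trans (add_le_add ?_ (hB x hx)))
      (ms.mono fun x hx => (ev x hx).mono fun k hk => ?_)
    · rw [e k x hx]
      refine (norm_add_le _ _).trans (add_le_add ?_ ?_)
      · rw [norm_mul]
        exact (mul_le_of_le_one_right (norm_nonneg _) (hC _).1).trans (hB x hx)
      by_cases hx' : x ∈ K
      · have q := (hC (k * b x)).2.2.1
        have bp := b1 x hx
        rw [abs_of_nonneg (by positivity)] at q
        rw [norm_mul, norm_mul, Complex.norm_real, norm_mul, Real.norm_natCast]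
        calc _ ≤ |M| * b x * (k * |B'| * ‖deriv chi (k * b x)‖) := by
              gcongr
              · exact (b4 x hx).trans (mul_le_mul_of_nonneg_right (le_abs_self _) bp.le)
              · exact (hB' x hx').trans (le_abs_self _)
          _ = |M| * |B'| * (k * b x * ‖deriv chi (k * b x)‖) := by ring
          _ ≤ _ := by gcongr
      · rw [h.2 x hx hx', zero_mul, norm_zero]; positivity
    · rw [Pi.sub_apply, e k x hx, chi_one hk.le, (chi_deriv fun h => hk.not_ge h.2).1]
      simp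

end Pool.Agent.Lib.MP_322279_an.All
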